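import Pool.Agent.Q226.ADA.Cube

set_option autoImplicit false
set_option linter.unusedSectionVars false

/-! Adaptive reductions of small depth. -/

namespace Pool.Agent.Q226.ADA

open Finset DomAC0 H568R2 Pool.Agent.TH163.AC3 Pool.Agent.Y601 Pool.Agent.Q226.SEN
open scoped Classical

section sums

/-- the sum over the proper final segments -/
def sfx (F : List Bool → ℝ) : List Bool → ℝ
  | [] => 0
  | _ :: l => F l + sfx F l

lemma le_tot : ∀ {k : ℕ} {F : List Bool → ℝ}, (∀ l, 0 ≤ F l) → ∀ {l : List Bool}, l.length = k →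
    F l ≤ tot k F
  | 0, F, _, l, hl => by
      rw [List.length_eq_zero_iff] at hl
      subst hl
      exact le_rfl
  | k + 1, F, h, [], hl => by simp at hl
  | k + 1, F, h, b :: l, hl => by
      have h1 : l.length = k := by simpa using hl
      have h2 := le_tot (F := fun l => F (true :: l) + F (false :: l))
        (fun l => add_nonneg (h _) (h _)) h1
      refine le_trans ?_ h2
      cases b
      · exact le_add_of_nonneg_left (h _)
      · exact le_add_of_nonneg_right (h _)

lemma sfx_nonneg {F : List Bool → ℝ} (h : ∀ l, 0 ≤ F l) : ∀ l, 0 ≤ sfx F l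
  | [] => le_rfl
  | _ :: l => add_nonneg (h l) (sfx_nonneg h l)

lemma le_sfx {F : List Bool → ℝ} (h : ∀ l, 0 ≤ F l) {l' : List Bool} :
    ∀ l : List Bool, l' <:+ l → l' ≠ l → F l' ≤ sfx F l
  | [], h1, h2 => absurd (List.suffix_nil.1 h1) h2
  | b :: l, h1, h2 => by
      rcases List.suffix_cons_iff.1 h1 with h3 | h3
      · exact absurd h3 h2
      · rcases eq_or_ne l' l with h4 | h4
        · subst h4
          exact le_add_of_nonneg_right (sfx_nonneg h _)
        · exact (le_sfx h l h3 h4).trans (le_add_of_nonneg_left (h _))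

lemma sfx_mono {F F' : List Bool → ℝ} (l : List Bool) (h : ∀ l', l' <:+ l → F l' ≤ F' l') :
    sfx F l ≤ sfx F' l := by
  induction l with
  | nil => exact le_rfl
  | cons b l ih =>
    exact add_le_add (h l (List.suffix_cons b l)) (ih fun l' h1 => h l' (h1.trans (List.suffix_cons b l)))

lemma sfx_const (c : ℝ) (l : List Bool) : sfx (fun _ => c) l = l.length * c := by
  induction l with
  | nil => simp [sfx]
  | cons b l ih =>
    show c + sfx _ l = _
    rw [ih, List.length_cons]
    push_cast
    ring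

lemma tot_const (k : ℕ) (c : ℝ) : tot k (fun _ => c) = 2 ^ k * c := by
  induction k generalizing c with
  | zero => simp [tot]
  | succ k ih =>
    show tot k (fun _ => c + c) = _
    rw [ih]
    ring

variable {I A : Type} [Fintype I] [DecidableEq I] [Fintype A]

lemma ex_tot (w : A → ℝ) : ∀ (k : ℕ) (F : List Bool → (I → A) → ℝ),
    Ex w (fun τ => tot k fun l => F l τ) = tot k fun l => Ex w (F l)
  | 0, _ => rfl
  | k + 1, F => by
      show Ex w (fun τ => tot k fun l => F (true :: l) τ + F (false :: l) τ) = tot k _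
      rw [ex_tot w k fun l τ => F (true :: l) τ + F (false :: l) τ]
      exact tot_congr fun l _ => Ex_add w _ _

lemma ex_sfx (w : A → ℝ) (F : List Bool → (I → A) → ℝ) (l : List Bool) :
    Ex w (fun τ => sfx (fun l => F l τ) l) = sfx (fun l => Ex w (F l)) l := by
  induction l with
  | nil =>
    show Ex w (fun _ => 0) = 0
    unfold Ex
    simp
  | cons b l ih =>
    show Ex w (fun τ => F l τ + sfx (fun l => F l τ) l) = Ex w (F l) + sfx (fun l => Ex w (F l)) l
    rw [Ex_add, ih]

end sums

section test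

variable {I T : Type} [Fintype I] [DecidableEq I] [Fintype T]

/-- an equality test of shallow bits has short certificates for `false` -/
lemma test_cert {s : ℕ} (u v : T → (I → Bool) → Bool) (τ : Restr I)
    (hu : ∀ e, HasDT s (rs (u e) τ)) (hv : ∀ e, HasDT s (rs (v e) τ)) :
    Cert (2 * s) false (rs (fun x => decide (∀ e, u e x = v e x)) τ) := by
  intro x hx
  simp only [rs, decide_eq_false_iff_not, not_forall] at hx
  obtain ⟨e, he⟩ := hx
  obtain ⟨A, hA, hA'⟩ := (hu e).cert (u e (ov τ x)) x rfl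
  obtain ⟨B, hB, hB'⟩ := (hv e).cert (v e (ov τ x)) x rfl
  refine ⟨A ∪ B, (card_union_le _ _).trans (by omega), fun y hy => ?_⟩
  simp only [rs, decide_eq_false_iff_not, not_forall]
  refine ⟨e, ?_⟩
  have h1 := hA' y fun i hi => hy i (mem_union_left _ hi)
  have h2 := hB' y fun i hi => hy i (mem_union_right _ hi)
  have h1' : u e (ov τ y) = u e (ov τ x) := h1
  have h2' : v e (ov τ y) = v e (ov τ x) := h2
  rw [h1', h2']
  exact he

end test

section circuits

variable {N k : ℕ} {T : Type} [Fintype T]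

/-- the gates of all circuits are shallow -/
def GoodA (C : List Bool → Circuit (Fin N)) (k s h : ℕ) (τ : Restr (Fin N)) : Prop :=
  ∀ l : List Bool, l.length ≤ k → Shallow (C l) s h τ

/-- the equality tests -/
noncomputable def test (query : List Bool → (Fin N → Bool) → T → Bool) (l l' : List Bool)
    (x : Fin N → Bool) : Bool := decide (∀ e, query l' x e = query l x e)

/-- the equality tests are shallow -/
def GoodB (query : List Bool → (Fin N → Bool) → T → Bool) (k s : ℕ)
    (τ1 τ2 : Restr (Fin N)) : Prop :=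
  ∀ l l' : List Bool, l.length < k → l' <:+ l → l' ≠ l →
    HasDT s (rs (rs (test query l l') τ1) τ2)

lemma badA (C : List Bool → Circuit (Fin N)) {k s h M : ℕ} (hM : ∀ l, l.length ≤ k → (C l).size ≤ M)
    (hs : 1 ≤ s) {q : ℝ} (hq : q = 1 / (24 * s)) :
    Ex (wq (q ^ h)) (fun τ : Restr (Fin N) => if ¬ GoodA C k s h τ then (1 : ℝ) else 0) ≤
      2 ^ (k + 1) * (h * M * (1 / 2) ^ (s + 1)) := by
  have hs0 : (1 : ℝ) ≤ s := by exact_mod_cast hs
  have hq0 : 0 < q := by rw [hq]; positivity
  have hq1 : q ≤ 1 / 3 := by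
    rw [hq, div_le_div_iff₀ (by positivity) (by norm_num)]
    linarith
  have h12 : (12 * s * q : ℝ) = 1 / 2 := by rw [hq]; field_simp; norm_num
  have hw : ∀ c, 0 ≤ wq (q ^ h) c :=
    wq_nonneg (pow_nonneg hq0.le h) (pow_le_one₀ hq0.le (by linarith))
  have h1 : ∀ τ : Restr (Fin N), (if ¬ GoodA C k s h τ then (1 : ℝ) else 0) ≤
      ∑ j ∈ range (k + 1), tot j fun l => if ¬ Shallow (C l) s h τ then (1 : ℝ) else 0 := by
    intro τ
    have hnn : ∀ l, (0 : ℝ) ≤ if ¬ Shallow (C l) s h τ then (1 : ℝ) else 0 := fun l => by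
      split_ifs <;> norm_num
    by_cases hG : GoodA C k s h τ
    · rw [if_neg (not_not.2 hG)]
      exact sum_nonneg fun j _ => tot_nonneg fun l _ => hnn l
    · rw [if_pos hG]
      unfold GoodA at hG
      push Not at hG
      obtain ⟨l, hl, hS⟩ := hG
      have h2 := le_tot hnn (l := l) rfl
      rw [if_pos hS] at h2
      refine h2.trans ?_
      exact single_le_sum (f := fun j => tot j fun l => if ¬ Shallow (C l) s h τ then (1 : ℝ) else 0)
        (fun j _ => tot_nonneg fun l _ => hnn l) (mem_range.2 (by omega))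
  refine (Ex_mono hw h1).trans ?_
  rw [Ex_sum]
  have h2 : ∀ j ∈ range (k + 1), Ex (wq (q ^ h)) (fun τ : Restr (Fin N) =>
      tot j fun l => if ¬ Shallow (C l) s h τ then (1 : ℝ) else 0) ≤
      2 ^ j * (h * M * (1 / 2) ^ (s + 1)) := by
    intro j hj
    rw [mem_range] at hj
    rw [ex_tot _ j fun l τ => if ¬ Shallow (C l) s h τ then (1 : ℝ) else 0, ← tot_const]
    refine tot_mono fun l hl => ?_
    have h3 := collapse' (C l) hq0.le hq1 hs h
    rw [h12] at h3
    refine h3.trans ?_
    have h4 : ((C l).size : ℝ) ≤ M := by exact_mod_cast hM l (by omega)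
    gcongr
  refine (sum_le_sum h2).trans ?_
  rw [← sum_mul]
  refine mul_le_mul_of_nonneg_right ?_ (by positivity)
  have h3 : ∀ n : ℕ, ∑ j ∈ range n, (2 : ℝ) ^ j ≤ 2 ^ n := by
    intro n
    induction n with
    | zero => simp
    | succ n ih => rw [sum_range_succ, pow_succ]; linarith
  exact h3 _

lemma badB (query : List Bool → (Fin N → Bool) → T → Bool) {k s : ℕ} (hs : 1 ≤ s) {q : ℝ}
    (hq : q = 1 / (48 * s)) (τ1 : Restr (Fin N))
    (hdt : ∀ l e, l.length < k → HasDT s (rs (fun x => query l x e) τ1)) :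
    Ex (wq q) (fun τ2 : Restr (Fin N) => if ¬ GoodB query k s τ1 τ2 then (1 : ℝ) else 0) ≤
      2 ^ k * (k * (1 / 2) ^ (s + 1)) := by
  have hs0 : (1 : ℝ) ≤ s := by exact_mod_cast hs
  have hq0 : 0 < q := by rw [hq]; positivity
  have hq1 : q ≤ 1 / 3 := by
    rw [hq, div_le_div_iff₀ (by positivity) (by norm_num)]
    linarith
  have h12 : (12 * ((2 * s : ℕ) : ℝ) * q : ℝ) = 1 / 2 := by
    rw [hq]; push_cast; field_simp; norm_num
  have hw : ∀ c, 0 ≤ wq q c := wq_nonneg hq0.le (by linarith)
  have h1 : ∀ τ2 : Restr (Fin N), (if ¬ GoodB query k s τ1 τ2 then (1 : ℝ) else 0) ≤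
      ∑ j ∈ range k, tot j fun l => sfx (fun l' =>
        if ¬ HasDT s (rs (rs (test query l l') τ1) τ2) then (1 : ℝ) else 0) l := by
    intro τ2
    have hnn : ∀ l l', (0 : ℝ) ≤
        if ¬ HasDT s (rs (rs (test query l l') τ1) τ2) then (1 : ℝ) else 0 := fun l l' => by
      split_ifs <;> norm_num
    by_cases hG : GoodB query k s τ1 τ2
    · rw [if_neg (not_not.2 hG)]
      exact sum_nonneg fun j _ => tot_nonneg fun l _ => sfx_nonneg (hnn l) l
    · rw [if_pos hG]
      unfold GoodB at hG
      push Not at hG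
      obtain ⟨l, l', hl, hsf, hne, hS⟩ := hG
      have h2 := le_sfx (hnn l) l hsf hne
      rw [if_pos hS] at h2
      have h3 := le_tot (F := fun l => sfx (fun l' =>
        if ¬ HasDT s (rs (rs (test query l l') τ1) τ2) then (1 : ℝ) else 0) l)
        (fun l => sfx_nonneg (hnn l) l) (l := l) rfl
      refine (h2.trans h3).trans ?_
      exact single_le_sum (f := fun j => tot j fun l => sfx (fun l' =>
        if ¬ HasDT s (rs (rs (test query l l') τ1) τ2) then (1 : ℝ) else 0) l)
        (fun j _ => tot_nonneg fun l _ => sfx_nonneg (hnn l) l) (mem_range.2 hl)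
  refine (Ex_mono hw h1).trans ?_
  rw [Ex_sum]
  have h2 : ∀ j ∈ range k, Ex (wq q) (fun τ2 : Restr (Fin N) =>
      tot j fun l => sfx (fun l' =>
        if ¬ HasDT s (rs (rs (test query l l') τ1) τ2) then (1 : ℝ) else 0) l) ≤
      2 ^ j * (k * (1 / 2) ^ (s + 1)) := by
    intro j hj
    rw [mem_range] at hj
    rw [ex_tot _ j fun l τ2 => sfx (fun l' =>
        if ¬ HasDT s (rs (rs (test query l l') τ1) τ2) then (1 : ℝ) else 0) l, ← tot_const]
    refine tot_mono fun l hl => ?_
    rw [ex_sfx (wq q) (fun l' τ2 =>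
        if ¬ HasDT s (rs (rs (test query l l') τ1) τ2) then (1 : ℝ) else 0) l]
    have h3 : sfx (fun l' => Ex (wq q) fun τ2 : Restr (Fin N) =>
        if ¬ HasDT s (rs (rs (test query l l') τ1) τ2) then (1 : ℝ) else 0) l ≤
        sfx (fun _ => (1 / 2 : ℝ) ^ (s + 1)) l := by
      refine sfx_mono l fun l' hsf => ?_
      have h4 : Cert (2 * s) false (rs (test query l l') τ1) :=
        test_cert (fun e x => query l' x e) (fun e x => query l x e) τ1
          (fun e => hdt l' e (lt_of_le_of_lt hsf.length_le (by omega)))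
          (fun e => hdt l e (by omega))
      have h5 := switching' (s := s) hq0.le hq1 h4
      rwa [h12] at h5
    refine h3.trans ?_
    rw [sfx_const, hl]
    refine mul_le_mul_of_nonneg_right ?_ (by positivity)
    exact_mod_cast hj.le
  refine (sum_le_sum h2).trans ?_
  rw [← sum_mul]
  refine mul_le_mul_of_nonneg_right ?_ (by positivity)
  have h3 : ∀ n : ℕ, ∑ j ∈ range n, (2 : ℝ) ^ j ≤ 2 ^ n := by
    intro n
    induction n with
    | zero => simp
    | succ n ih => rw [sum_range_succ, pow_succ]; linarith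
  exact h3 _

end circuits

end Pool.Agent.Q226.ADA
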