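import Pool.Agent.Q226.ADA.Oracle
import Pool.Agent.Q226.SEN.Ac0

set_option autoImplicit false
set_option linter.unusedSectionVars false

/-! Adaptive reductions with few sensitive bits. -/

namespace Pool.Agent.Q226.ADA

open Finset Pool.Agent.Q226.SEN H568R2 Pool.Agent.Y601
open scoped Classical

section pats

variable {G ι : Type}

lemma pat_sum (J : Finset ι) (q : List Bool → G) (q' : ι → List Bool → G) {s : ℝ}
    (l : List Bool) (H : ∀ l', l' <:+ l → l' ≠ l →
      ((J.filter fun i => ¬ (q l' = q l ↔ q' i l' = q' i l)).card : ℝ) ≤ s) :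
    ∑ i ∈ J, (pat q (q' i) (q l) (q' i l) l : ℝ) ≤ s * l.length := by
  have key : ∀ l1 : List Bool, l1 <:+ l →
      ∑ i ∈ J, (pat q (q' i) (q l) (q' i l) l1 : ℝ) ≤ s * l1.length := by
    intro l1
    induction l1 with
    | nil =>
      intro _
      simp [pat]
    | cons b l2 ih =>
      intro h1
      have h2 : l2 <:+ l := (List.suffix_cons b l2).trans h1
      have h3 : l2 ≠ l := by
        intro h
        have h4 := h1.length_le
        rw [h] at h4
        simp at h4
      have h4 := ih h2
      have h5 := H l2 h2 h3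
      have h6 : ∑ i ∈ J, (pat q (q' i) (q l) (q' i l) (b :: l2) : ℝ) =
          ((J.filter fun i => ¬ (q l2 = q l ↔ q' i l2 = q' i l)).card : ℝ) +
            ∑ i ∈ J, (pat q (q' i) (q l) (q' i l) l2 : ℝ) := by
        rw [card_filter]
        push_cast
        rw [← sum_add_distrib]
        refine sum_congr rfl fun i _ => ?_
        show (((if (q l2 = q l ↔ q' i l2 = q' i l) then 0 else 1) +
          pat q (q' i) (q l) (q' i l) l2 : ℕ) : ℝ) = _
        push_cast
        by_cases h : (q l2 = q l ↔ q' i l2 = q' i l)
        · rw [if_pos h, if_neg (not_not.2 h)]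
        · rw [if_neg h, if_pos h]
      rw [h6, List.length_cons]
      push_cast
      linarith
  exact key l (List.suffix_refl l)

end pats

variable {N k : ℕ} {T : Type} [Fintype T] {Λ : Type}

lemma ov_toggle {τ : Restr (Fin N)} {i : Fin N} (hi : τ i = none) (y : Fin N → Bool) :
    ov τ (toggle i y) = toggle i (ov τ y) := by
  rw [← toggle_sse, ← toggle_sse]
  exact SSE.ov_flip τ i hi y

/-- the subcube of a restriction, for fixed coins -/
theorem cube_bound (S : Λ → T → Prop) {a b : ℝ} (hab : b < a) (J : Finset (Fin N))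
    (τ : Restr (Fin N)) (hJ : ∀ i ∈ J, τ i = none)
    (query : List Bool → (Fin N → Bool) → T → Bool) (output : List Bool → (Fin N → Bool) → Bool)
    (hne : ∀ l x, l.length < k → 1 ≤ size (query l x)) (s : ℕ)
    (hs1 : ∀ l y e, l.length < k → query l (ov τ y) e = true →
      (J.filter fun i => query l (toggle i (ov τ y)) e = false).card ≤ s)
    (hs2 : ∀ l l' y, l.length < k → l' <:+ l → l' ≠ l →
      (J.filter fun i => ¬ (query l' (ov τ y) = query l (ov τ y) ↔
        query l' (toggle i (ov τ y)) = query l (toggle i (ov τ y)))).card ≤ s)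
    (hs3 : ∀ l y, l.length = k →
      (J.filter fun i => output l (ov τ y) ≠ output l (toggle i (ov τ y))).card ≤ s) :
    ∑ y : Fin N → Bool, ∑ i ∈ J,
      |prob (pr S a b) (fun l => query l (ov τ y)) k (fun l => output l (ov τ y)) -
        prob (pr S a b) (fun l => query l (toggle i (ov τ y))) k
          (fun l => output l (toggle i (ov τ y)))| ≤
      2 ^ N * (s * (2 * (1 / (a - b)) * k + k * (k - 1) / 2 + 1)) := by
  have hc : 0 < a - b := by linarith
  have hsR : (0 : ℝ) ≤ s := Nat.cast_nonneg _
  have h := charge (X := Fin N → Bool) (pr_nonneg S a b) (pr_le_one S a b) J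
    (fun i y => toggle i y) toggle_toggle (fun y l => query l (ov τ y)) k
    (fun y l => output l (ov τ y)) (L := 1 / (a - b)) (s := s) (by positivity) frac
    (fun x x' l hl => pr_lip S hab (hne _ _ hl) (hne _ _ hl)) frac_nonneg ?_ ?_ ?_
  · rw [Fintype.card_fun, Fintype.card_bool, Fintype.card_fin] at h
    push_cast at h
    refine le_trans (le_of_eq ?_) h
    refine sum_congr rfl fun y _ => sum_congr rfl fun i hi => ?_
    rw [ov_toggle (hJ i hi)]
  · intro y l hl
    have h1 := gone_sum_le (fun x e => query l x e) (ov τ y) J (s := s) fun e he =>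
      hs1 l y e hl he
    have h2 : ∑ i ∈ J, frac (query l (ov τ y)) (query l (ov τ (toggle i y))) =
        ((∑ i ∈ J, gone (query l (ov τ y)) (query l (toggle i (ov τ y))) : ℕ) : ℝ) /
          size (query l (ov τ y)) := by
      push_cast
      rw [sum_div]
      refine sum_congr rfl fun i hi => ?_
      rw [ov_toggle (hJ i hi)]
      rfl
    rw [h2]
    have h3 : (0 : ℝ) < size (query l (ov τ y)) := by
      have := hne l (ov τ y) hl
      exact_mod_cast this
    rw [div_le_iff₀ h3]
    exact_mod_cast h1
  · intro y l hl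
    have h1 := pat_sum J (fun l => query l (ov τ y)) (fun i l => query l (ov τ (toggle i y)))
      (s := s) l ?_
    · exact h1
    · intro l' h2 h3
      have h4 := hs2 l l' y hl h2 h3
      refine le_trans (Nat.cast_le.2 (card_le_card ?_)) (Nat.cast_le.2 h4)
      intro i hi
      simp only [mem_filter] at hi ⊢
      rw [ov_toggle (hJ i hi.1)] at hi
      exact hi
  · intro y l hl
    have h4 := hs3 l y hl
    have h5 : (J.filter fun i => output l (ov τ y) ≠ output l (ov τ (toggle i y))) =
        J.filter fun i => output l (ov τ y) ≠ output l (toggle i (ov τ y)) := by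
      refine filter_congr fun i hi => ?_
      rw [ov_toggle (hJ i hi)]
    rw [h5]
    exact_mod_cast h4

/-- Reductions of arbitrary complexity: few sensitive bits are impossible. -/
theorem few (S : Λ → T → Prop) {a b γ : ℝ} (hb : 0 ≤ b) (hab : b < a) {R : Type} [Fintype R]
    [Nonempty R] (query : R → List Bool → (Fin N → Bool) → T → Bool)
    (output : R → List Bool → (Fin N → Bool) → Bool)
    (hne : ∀ ρ l x, l.length < k → 1 ≤ size (query ρ l x))
    (hred : AdaptivelyReduces S a b k query output γ) (s : ℕ)
    (hs1 : ∀ ρ l x e, l.length < k → query ρ l x e = true →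
      (univ.filter fun i => query ρ l (toggle i x) e = false).card ≤ s)
    (hs2 : ∀ ρ l l' x, l.length < k → l' <:+ l → l' ≠ l →
      (univ.filter fun i => ¬ (query ρ l' x = query ρ l x ↔
        query ρ l' (toggle i x) = query ρ l (toggle i x))).card ≤ s)
    (hs3 : ∀ ρ l x, l.length = k →
      (univ.filter fun i => output ρ l x ≠ output ρ l (toggle i x)).card ≤ s) :
    2 * γ * N ≤ s * (2 * (1 / (a - b)) * k + k * (k - 1) / 2 + 1) := by
  have hR : (0 : ℝ) < Fintype.card R := by exact_mod_cast Fintype.card_pos
  have h1 : ∀ ρ : R, ∑ x : Fin N → Bool, ∑ i : Fin N,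
      |pout (pr S a b) k query output ρ x - pout (pr S a b) k query output ρ (toggle i x)| ≤
      2 ^ N * (s * (2 * (1 / (a - b)) * k + k * (k - 1) / 2 + 1)) := by
    intro ρ
    have hov : ∀ y : Fin N → Bool, ov (fun _ => none) y = y := fun y => rfl
    exact cube_bound S hab univ (fun _ => none) (fun _ _ => rfl) (query ρ) (output ρ) (hne ρ) s
      (fun l y e => hs1 ρ l y e) (fun l l' y => hs2 ρ l l' y) (fun l y => hs3 ρ l y)
  have h2 : ∑ x : Fin N → Bool, ∑ i : Fin N, 2 * γ * Fintype.card R ≤
      ∑ ρ : R, ∑ x : Fin N → Bool, ∑ i : Fin N,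
        |pout (pr S a b) k query output ρ x - pout (pr S a b) k query output ρ (toggle i x)| := by
    rw [sum_comm (s := (univ : Finset R))]
    refine sum_le_sum fun x _ => ?_
    rw [sum_comm (s := (univ : Finset R))]
    exact sum_le_sum fun i _ => pair S hb hab query output hred x i
  have h3 := h2.trans (sum_le_sum fun ρ _ => h1 ρ)
  rw [sum_const, sum_const, sum_const, card_univ, card_univ, card_univ, Fintype.card_fun,
    Fintype.card_bool, Fintype.card_fin, nsmul_eq_mul, nsmul_eq_mul, nsmul_eq_mul] at h3
  push_cast at h3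
  have h4 : (2 * γ * N) * (2 ^ N * Fintype.card R) ≤
      (s * (2 * (1 / (a - b)) * k + k * (k - 1) / 2 + 1)) * (2 ^ N * Fintype.card R) := by
    linarith
  exact le_of_mul_le_mul_right h4 (by positivity)

end Pool.Agent.Q226.ADA
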