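import Pool.Agent.Q226.SEN.Defs

/-!
# Adaptive reductions to gap problems: definitions

`T` is a finite type of possible constraints; an instance is a subset of `T`, given by its indicator
`g : T → Bool`, and `size g` is the number of its constraints. `Λ` is the type of the labellings;
`S ℓ e` means that the labelling `ℓ` satisfies the constraint `e`, and `sat S g ℓ` is the number of
the constraints of `g` which `ℓ` satisfies (`Pool/Agent/Q226/SEN/Defs.lean`).
-/

set_option autoImplicit false

namespace Pool.Agent.Q226.ADA

open Finset Pool.Agent.Q226.SEN
open scoped Classical

variable {G : Type} {N : ℕ} {T : Type} [Fintype T] {Λ : Type}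

/-- The list of the answers to the first `k` queries, the most recent one first, if the oracle is `O`
and the query after the list `l` of answers is `q l`. -/
def run (O : G → Bool) (q : List Bool → G) : ℕ → List Bool
  | 0 => []
  | k + 1 => O (q (run O q k)) :: run O q k

/-- The oracle `O` is right on the nonempty instances in the promise: it answers `1` if some labelling
satisfies at least the fraction `a` of the constraints, and `0` if every labelling satisfies at most
the fraction `b` of the constraints; its other answers are arbitrary. -/
def Right (S : Λ → T → Prop) (a b : ℝ) (O : (T → Bool) → Bool) : Prop :=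
  ∀ g, 1 ≤ size g → ((∃ ℓ, a * size g ≤ sat S g ℓ) → O g = true) ∧
    ((∀ ℓ, (sat S g ℓ : ℝ) ≤ b * size g) → O g = false)

/-- A randomised adaptive reduction with `k` queries and advantage `γ` from parity to the gap problem:
for the random choice `ρ`, the input `x` and the list `l` of the answers given so far, the next query
is the instance `query ρ l x`, and after `k` answers the output is `output ρ l x`. For every right
oracle and every input the output is the parity of `x` with probability at least `1 / 2 + γ` over
`ρ`. -/
def AdaptivelyReduces (S : Λ → T → Prop) (a b : ℝ) (k : ℕ) {R : Type} [Fintype R]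
    (query : R → List Bool → (Fin N → Bool) → T → Bool)
    (output : R → List Bool → (Fin N → Bool) → Bool) (γ : ℝ) : Prop :=
  ∀ O, Right S a b O → ∀ x, (1 / 2 + γ) * Fintype.card R ≤
    ((univ.filter fun ρ => output ρ (run O (fun l => query ρ l x) k) x = par x).card : ℝ)

/-- A randomised nonadaptive reduction with `k` queries and advantage `γ` from parity to the gap
problem: for the random choice `ρ` and the input `x` the queries are the instances `query ρ j x`,
`j < k`, and the output is an arbitrary function `eval ρ` of the answers. -/
def NonadaptivelyReduces (S : Λ → T → Prop) (a b : ℝ) {k : ℕ} {R : Type} [Fintype R]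
    (query : R → Fin k → (Fin N → Bool) → T → Bool) (eval : R → (Fin k → Bool) → Bool) (γ : ℝ) :
    Prop :=
  ∀ O, Right S a b O → ∀ x, (1 / 2 + γ) * Fintype.card R ≤
    ((univ.filter fun ρ => eval ρ (fun j => O (query ρ j x)) = par x).card : ℝ)

end Pool.Agent.Q226.ADA
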