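import Pool.Agent.Q226.ADA.Main

set_option autoImplicit false
set_option linter.unusedSectionVars false

/-! Adaptive reductions of small depth must be large. -/

namespace Pool.Agent.Q226.ADA

open Finset DomAC0 H568R2 Pool.Agent.TH163.AC3 Pool.Agent.Y601 Pool.Agent.Q226.SEN
open scoped Classical

theorem exists_large (h : ℕ) : ∃ Y0 : ℝ, 100 ≤ Y0 ∧ ∀ Y : ℝ, Y0 ≤ Y →
    (4 * h + 2) * Y ^ (h + 1) * (2 : ℝ) ^ (Y / 50) ≤ 2 ^ (Y / 24) := by
  obtain ⟨b, hb⟩ : ∃ b : ℝ, b = Real.log 2 * (1 / 24 - 1 / 50) := ⟨_, rfl⟩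
  have hl : 0 < Real.log 2 := Real.log_pos (by norm_num)
  have hb0 : 0 < b := by rw [hb]; exact mul_pos hl (by norm_num)
  have h1 : Filter.Tendsto
      (fun Y : ℝ => (4 * h + 2) * ((b * Y) ^ (h + 1) * Real.exp (-(b * Y))) / b ^ (h + 1))
      Filter.atTop (nhds ((4 * h + 2) * 0 / b ^ (h + 1))) := by
    have h2 := (Real.tendsto_pow_mul_exp_neg_atTop_nhds_zero (h + 1)).comp
      (Filter.tendsto_id.const_mul_atTop hb0)
    exact (h2.const_mul (4 * h + 2 : ℝ)).div_const _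
  rw [mul_zero, zero_div] at h1
  have h3 := h1.eventually (gt_mem_nhds (show (0 : ℝ) < 1 by norm_num))
  obtain ⟨Y1, hY1⟩ := Filter.eventually_atTop.1 h3
  refine ⟨max Y1 100, le_max_right _ _, fun Y hY => ?_⟩
  have h4 := (hY1 Y ((le_max_left _ _).trans hY)).le
  have hbh : 0 < b ^ (h + 1) := by positivity
  have h5 : (4 * h + 2) * ((b * Y) ^ (h + 1) * Real.exp (-(b * Y))) / b ^ (h + 1) =
      (4 * h + 2) * Y ^ (h + 1) * Real.exp (-(b * Y)) := by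
    rw [mul_pow]
    field_simp
  rw [h5] at h4
  have h6 : (2 : ℝ) ^ (Y / 50) = Real.exp (-(b * Y)) * 2 ^ (Y / 24) := by
    rw [Real.rpow_def_of_pos (by norm_num), Real.rpow_def_of_pos (by norm_num), ← Real.exp_add, hb]
    congr 1
    ring
  rw [h6, ← mul_assoc]
  refine (mul_le_mul_of_nonneg_right h4 (by positivity)).trans (le_of_eq (one_mul _))

lemma bound_B {k c : ℝ} (hk : 1 ≤ k) (hc : 0 < c) (hc1 : c ≤ 1) :
    2 * (1 / c) * k + k * (k - 1) / 2 + 1 ≤ 7 / 2 * (k ^ 2 / c) := by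
  obtain ⟨u, hu⟩ : ∃ u : ℝ, u = 1 / c := ⟨_, rfl⟩
  have h1 : 1 ≤ u := by
    rw [hu, le_div_iff₀ hc]
    linarith
  have h2 : k ^ 2 / c = u * k ^ 2 := by rw [hu]; ring
  rw [h2, ← hu]
  have h3 : k ≤ k ^ 2 := by nlinarith
  have h4 : u * k ≤ u * k ^ 2 := mul_le_mul_of_nonneg_left h3 (by linarith)
  have h5 : 1 * k ^ 2 ≤ u * k ^ 2 := mul_le_mul_of_nonneg_right h1 (by positivity)
  have h6 : 2 * u * k + k * (k - 1) / 2 + 1 = 2 * (u * k) + (k ^ 2 - k) / 2 + 1 := by ring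
  rw [h6]
  linarith

/-- **The lower bound.** -/
theorem final (h : ℕ) : ∃ X0 : ℝ, ∀ {N k M : ℕ} {T Λ R : Type} [Fintype T] [Fintype R]
    [Nonempty R] (S : Λ → T → Prop) (a b γ : ℝ) (C : R → List Bool → Circuit (Fin N))
    (out : ∀ ρ l, T → Fin N ⊕ Fin (C ρ l).size) (fin : ∀ ρ l, Fin N ⊕ Fin (C ρ l).size),
    0 ≤ b → b < a → a ≤ 1 → 0 < γ → 1 ≤ k →
    (∀ ρ l, l.length ≤ k → (C ρ l).size ≤ M) →
    (∀ ρ l e, l.length < k → (C ρ l).nodeDepth (out ρ l e) ≤ h) →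
    (∀ ρ l, l.length = k → (C ρ l).nodeDepth (fin ρ l) ≤ h) →
    (∀ ρ l x, l.length < k → 1 ≤ size (fun e => (C ρ l).nodeVal x (out ρ l e))) →
    AdaptivelyReduces S a b k (fun ρ l x e => (C ρ l).nodeVal x (out ρ l e))
      (fun ρ l x => (C ρ l).nodeVal x (fin ρ l)) γ →
    X0 * (k : ℝ) ^ (h + 4) ≤ γ * (a - b) * N →
    γ * (2 : ℝ) ^ ((γ * (a - b) * N / (k : ℝ) ^ 2) ^ (1 / (h + 2 : ℝ)) / 100) ≤ M + k := by
  obtain ⟨Y0, hY100, hY0⟩ := exists_large h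
  refine ⟨Y0 ^ (h + 2), ?_⟩
  intro N k M T Λ R _ _ _ S a b γ C out fin hb hab ha hγ hk hM hh hfin hne hred hX
  have hkR : (1 : ℝ) ≤ k := by exact_mod_cast hk
  have hk0 : (0 : ℝ) < k := by linarith
  have hc : 0 < a - b := by linarith
  have hκ : 0 < γ * (a - b) := mul_pos hγ hc
  obtain ⟨X, hXd⟩ : ∃ X : ℝ, X = γ * (a - b) * N / (k : ℝ) ^ 2 := ⟨_, rfl⟩
  rw [← hXd]
  have hX2 : (Y0 * k) ^ (h + 2) ≤ X := by
    rw [hXd, le_div_iff₀ (by positivity)]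
    refine le_trans (le_of_eq ?_) hX
    rw [mul_pow, mul_assoc, ← pow_add]
  obtain ⟨Y, hYd⟩ : ∃ Y : ℝ, Y = X ^ (1 / (h + 2 : ℝ)) := ⟨_, rfl⟩
  rw [← hYd]
  have hY00 : (0 : ℝ) ≤ Y0 := by linarith
  have hXpos : 0 ≤ X := le_trans (by positivity) hX2
  have hYX : Y ^ (h + 2) = X := by
    rw [hYd, ← Real.rpow_natCast, ← Real.rpow_mul hXpos]
    push_cast
    rw [one_div, inv_mul_cancel₀ (by positivity), Real.rpow_one]
  have hYn : 0 ≤ Y := by rw [hYd]; exact Real.rpow_nonneg hXpos _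
  have hYk : Y0 * k ≤ Y := by
    by_contra hcon
    push Not at hcon
    have := pow_lt_pow_left₀ hcon hYn (show h + 2 ≠ 0 by omega)
    rw [hYX] at this
    linarith
  have hYY : Y0 ≤ Y := by
    refine le_trans ?_ hYk
    nlinarith
  have hY := hY0 Y hYY
  have hk100 : (k : ℝ) ≤ Y / 100 := by
    rw [le_div_iff₀ (by norm_num)]
    nlinarith
  by_contra hcon
  push Not at hcon
  -- the depth of the decision trees
  obtain ⟨s, hs⟩ : ∃ s : ℕ, s = ⌈Y / 24⌉₊ - 1 := ⟨_, rfl⟩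
  have hc1 : Y / 24 ≤ ⌈Y / 24⌉₊ := Nat.le_ceil _
  have hc2 : (⌈Y / 24⌉₊ : ℝ) < Y / 24 + 1 := Nat.ceil_lt_add_one (by positivity)
  have hc3 : 2 ≤ ⌈Y / 24⌉₊ := by
    have : (2 : ℝ) ≤ ⌈Y / 24⌉₊ := le_trans (by linarith) hc1
    exact_mod_cast this
  have hs1 : 1 ≤ s := by omega
  have hsr : (s : ℝ) = ⌈Y / 24⌉₊ - 1 := by
    rw [hs, Nat.cast_sub (by omega), Nat.cast_one]
  have hs2 : 24 * (s : ℝ) < Y := by rw [hsr]; linarith
  have hs3 : Y / 24 ≤ s + 1 := by rw [hsr]; linarith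
  have hs0 : (1 : ℝ) ≤ s := by exact_mod_cast hs1
  have hlt : (24 * (s : ℝ)) ^ (h + 2) < X := by
    rw [← hYX]
    exact pow_lt_pow_left₀ hs2 (by positivity) (by omega)
  have hcond : (2 : ℝ) ^ k * (2 * (h * M) + k) * ((24 * s) ^ h * (48 * s)) ≤ γ * 2 ^ (s + 1) := by
    have e1 : (2 : ℝ) ^ k ≤ 2 ^ (Y / 100) := by
      rw [← Real.rpow_natCast]
      exact Real.rpow_le_rpow_of_exponent_le (by norm_num) hk100
    have hM0 : (0 : ℝ) ≤ M := Nat.cast_nonneg _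
    have hh0 : (0 : ℝ) ≤ h := Nat.cast_nonneg _
    have e2 : 2 * ((h : ℝ) * M) + k ≤ (2 * h + 1) * (γ * 2 ^ (Y / 100)) := by
      have : 2 * ((h : ℝ) * M) + k ≤ (2 * h + 1) * (M + k) := by nlinarith
      refine this.trans (mul_le_mul_of_nonneg_left hcon.le (by positivity))
    have e3 : (24 * (s : ℝ)) ^ h * (48 * s) ≤ 2 * Y ^ (h + 1) := by
      have : (24 * (s : ℝ)) ^ h * (48 * s) = 2 * (24 * s) ^ (h + 1) := by
        rw [pow_succ]; ring
      rw [this]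
      exact mul_le_mul_of_nonneg_left (pow_le_pow_left₀ (by positivity) hs2.le _) (by norm_num)
    calc (2 : ℝ) ^ k * (2 * (h * M) + k) * ((24 * s) ^ h * (48 * s))
        ≤ 2 ^ (Y / 100) * ((2 * h + 1) * (γ * 2 ^ (Y / 100))) * (2 * Y ^ (h + 1)) := by
          apply mul_le_mul _ e3 (by positivity) (by positivity)
          exact mul_le_mul e1 e2 (by positivity) (by positivity)
      _ = γ * ((4 * h + 2) * Y ^ (h + 1) * (2 ^ (Y / 100) * 2 ^ (Y / 100))) := by ring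
      _ = γ * ((4 * h + 2) * Y ^ (h + 1) * 2 ^ (Y / 50)) := by
          rw [← Real.rpow_add (by norm_num)]
          congr 3
          ring
      _ ≤ γ * 2 ^ (Y / 24) := mul_le_mul_of_nonneg_left hY hγ.le
      _ ≤ γ * 2 ^ ((s : ℝ) + 1) :=
          mul_le_mul_of_nonneg_left (Real.rpow_le_rpow_of_exponent_le (by norm_num) hs3) hγ.le
      _ = γ * 2 ^ (s + 1) := by
          congr 1
          rw [← Real.rpow_natCast]
          push_cast
          rfl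
  have hcore := core S hb hab C out fin h M hM hh hfin hne hred hs1 hcond
  -- the contradiction
  have hB := bound_B hkR hc (by linarith : a - b ≤ 1)
  have h1 : γ * N ≤ (s * (7 / 2 * ((k : ℝ) ^ 2 / (a - b)))) * ((24 * s) ^ h * (48 * s)) := by
    refine hcore.trans ?_
    apply mul_le_mul_of_nonneg_right _ (by positivity)
    exact mul_le_mul_of_nonneg_left hB (by positivity)
  have h2 : X ≤ 7 * s * (24 * s) ^ (h + 1) := by
    rw [hXd, div_le_iff₀ (by positivity)]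
    have h3 := mul_le_mul_of_nonneg_left h1 hc.le
    calc γ * (a - b) * N = (a - b) * (γ * N) := by ring
      _ ≤ _ := h3
      _ = 7 * s * (24 * s) ^ (h + 1) * k ^ 2 := by
        have e1 : (a - b) * ((k : ℝ) ^ 2 / (a - b)) = (k : ℝ) ^ 2 := by field_simp
        rw [pow_succ (24 * (s : ℝ)) h]
        calc (a - b) * ((s : ℝ) * (7 / 2 * ((k : ℝ) ^ 2 / (a - b))) * ((24 * (s : ℝ)) ^ h * (48 * s)))
            = ((a - b) * ((k : ℝ) ^ 2 / (a - b))) *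
                ((s : ℝ) * (7 / 2) * ((24 * (s : ℝ)) ^ h * (48 * s))) := by ring
          _ = (k : ℝ) ^ 2 * ((s : ℝ) * (7 / 2) * ((24 * (s : ℝ)) ^ h * (48 * s))) := by rw [e1]
          _ = _ := by ring
  have h3 : 7 * (s : ℝ) * (24 * s) ^ (h + 1) ≤ (24 * s) ^ (h + 2) := by
    have h4 : (24 * (s : ℝ)) ^ (h + 2) = 24 * s * (24 * s) ^ (h + 1) := by ring
    rw [h4]
    have : (0 : ℝ) ≤ (24 * s) ^ (h + 1) := by positivity
    nlinarith
  linarith

end Pool.Agent.Q226.ADA
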