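import Pool.Agent.Y601.SSE.Ac0
import Pool.Agent.Q226.ADA.Defs

set_option autoImplicit false
set_option linter.unusedSectionVars false

/-! Adaptive queries to a random oracle with independent answers. -/

namespace Pool.Agent.Q226.ADA

open Finset
open scoped Classical

section tot

/-- the sum of `F` over the lists of length `k` -/
def tot : ℕ → (List Bool → ℝ) → ℝ
  | 0, F => F []
  | k + 1, F => tot k fun l => F (true :: l) + F (false :: l)

lemma tot_mono : ∀ {k : ℕ} {F F' : List Bool → ℝ}, (∀ l, l.length = k → F l ≤ F' l) →
    tot k F ≤ tot k F'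
  | 0, _, _, h => h [] rfl
  | k + 1, F, F', h => tot_mono (k := k) (F := fun l => F (true :: l) + F (false :: l))
      (F' := fun l => F' (true :: l) + F' (false :: l)) fun l hl =>
      add_le_add (h _ (by simp [hl])) (h _ (by simp [hl]))

lemma tot_congr {k : ℕ} {F F' : List Bool → ℝ} (h : ∀ l, l.length = k → F l = F' l) :
    tot k F = tot k F' :=
  le_antisymm (tot_mono fun l hl => (h l hl).le) (tot_mono fun l hl => (h l hl).ge)

lemma tot_add : ∀ (k : ℕ) (F F' : List Bool → ℝ),
    tot k (fun l => F l + F' l) = tot k F + tot k F'
  | 0, _, _ => rfl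
  | k + 1, F, F' => by
      show tot k _ = tot k _ + tot k _
      rw [← tot_add k]
      exact tot_congr fun l _ => by ring

lemma tot_mul : ∀ (k : ℕ) (c : ℝ) (F : List Bool → ℝ), tot k (fun l => c * F l) = c * tot k F
  | 0, _, _ => rfl
  | k + 1, c, F => by
      show tot k _ = c * tot k _
      rw [← tot_mul k]
      exact tot_congr fun l _ => by ring

lemma tot_zero (k : ℕ) : tot k (fun _ => 0) = 0 := by
  have := tot_mul k 0 fun _ => 0
  simpa using this

lemma tot_sub (k : ℕ) (F F' : List Bool → ℝ) :
    tot k (fun l => F l - F' l) = tot k F - tot k F' := by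
  have h1 := tot_add k F (fun l => (-1) * F' l)
  rw [tot_mul] at h1
  have h2 : (fun l => F l - F' l) = fun l => F l + (-1) * F' l := by funext l; ring
  rw [h2, h1]; ring

lemma tot_sum {ι : Type} (s : Finset ι) (k : ℕ) (F : ι → List Bool → ℝ) :
    tot k (fun l => ∑ i ∈ s, F i l) = ∑ i ∈ s, tot k (F i) := by
  induction s using Finset.induction_on with
  | empty => simp [tot_zero]
  | insert a s ha ih =>
    rw [sum_insert ha, ← ih, ← tot_add]
    exact tot_congr fun l _ => by rw [sum_insert ha]

lemma tot_nonneg {k : ℕ} {F : List Bool → ℝ} (h : ∀ l, l.length = k → 0 ≤ F l) : 0 ≤ tot k F := by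
  have := tot_mono (F := fun _ => 0) (F' := F) h
  rwa [tot_zero] at this

end tot

section law

variable {G : Type}

lemma run_length (O : G → Bool) (q : List Bool → G) (k : ℕ) : (run O q k).length = k := by
  induction k with
  | zero => rfl
  | succ k ih => simp [run, ih]

/-- the answer to `g` in the history, if `g` was asked before -/
noncomputable def look (q : List Bool → G) (g : G) : List Bool → Option Bool
  | [] => none
  | b :: l => if q l = g then some b else look q g l

/-- the probability that the next answer is `b` -/
noncomputable def kap (f : G → ℝ) (q : List Bool → G) (l : List Bool) (b : Bool) : ℝ :=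
  match look q (q l) l with
  | some c => if c = b then 1 else 0
  | none => if b = true then f (q l) else 1 - f (q l)

/-- the probability of the history -/
noncomputable def mu (f : G → ℝ) (q : List Bool → G) : List Bool → ℝ
  | [] => 1
  | b :: l => mu f q l * kap f q l b

variable {f : G → ℝ} {q : List Bool → G}

lemma kap_nonneg (h0 : ∀ g, 0 ≤ f g) (h1 : ∀ g, f g ≤ 1) (l : List Bool) (b : Bool) :
    0 ≤ kap f q l b := by
  unfold kap
  split
  · split_ifs <;> norm_num
  · split_ifs
    · exact h0 _
    · linarith [h1 (q l)]

lemma kap_sum (l : List Bool) : kap f q l true + kap f q l false = 1 := by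
  unfold kap
  cases look q (q l) l with
  | none => simp
  | some c => cases c <;> simp

lemma kap_false (l : List Bool) : kap f q l false = 1 - kap f q l true := by
  linarith [kap_sum (f := f) (q := q) l]

lemma kap_le_one (h0 : ∀ g, 0 ≤ f g) (h1 : ∀ g, f g ≤ 1) (l : List Bool) (b : Bool) :
    kap f q l b ≤ 1 := by
  have h2 := kap_sum (f := f) (q := q) l
  have h3 := kap_nonneg (q := q) h0 h1 l true
  have h4 := kap_nonneg (q := q) h0 h1 l false
  cases b <;> linarith

lemma mu_nonneg (h0 : ∀ g, 0 ≤ f g) (h1 : ∀ g, f g ≤ 1) : ∀ l : List Bool, 0 ≤ mu f q l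
  | [] => zero_le_one
  | b :: l => mul_nonneg (mu_nonneg h0 h1 l) (kap_nonneg h0 h1 l b)

lemma tot_mu (f : G → ℝ) (q : List Bool → G) (k : ℕ) : tot k (mu f q) = 1 := by
  induction k with
  | zero => rfl
  | succ k ih =>
    show tot k (fun l => mu f q l * kap f q l true + mu f q l * kap f q l false) = 1
    rw [← ih]
    exact tot_congr fun l _ => by rw [← mul_add, kap_sum, mul_one]

variable [Fintype G] [DecidableEq G]

/-- the probability of the oracle -/
noncomputable def wt (f : G → ℝ) (O : G → Bool) : ℝ := ∏ g, if O g = true then f g else 1 - f g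

lemma wt_nonneg (h0 : ∀ g, 0 ≤ f g) (h1 : ∀ g, f g ≤ 1) (O : G → Bool) : 0 ≤ wt f O :=
  prod_nonneg fun g _ => by
    split_ifs
    · exact h0 g
    · linarith [h1 g]

/-- the product over the other instances -/
noncomputable def wt' (f : G → ℝ) (g : G) (O : G → Bool) : ℝ :=
  ∏ h ∈ univ.erase g, if O h = true then f h else 1 - f h

lemma wt_eq (f : G → ℝ) (g : G) (O : G → Bool) :
    wt f O = (if O g = true then f g else 1 - f g) * wt' f g O := by
  unfold wt wt'
  exact (mul_prod_erase univ _ (mem_univ g)).symm

lemma flip_same (g : G) (O : G → Bool) : Pool.Agent.Y601.SSE.flip g O g = !O g := by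
  unfold Pool.Agent.Y601.SSE.flip; simp

lemma flip_ne {g h : G} (hgh : h ≠ g) (O : G → Bool) : Pool.Agent.Y601.SSE.flip g O h = O h := by
  unfold Pool.Agent.Y601.SSE.flip; simp [hgh]

lemma wt'_flip (f : G → ℝ) (g : G) (O : G → Bool) :
    wt' f g (Pool.Agent.Y601.SSE.flip g O) = wt' f g O := by
  unfold wt'
  refine prod_congr rfl fun h hh => ?_
  rw [mem_erase] at hh
  rw [flip_ne hh.1]

lemma sum_flip (g : G) (F : (G → Bool) → ℝ) :
    ∑ O, F (Pool.Agent.Y601.SSE.flip g O) = ∑ O, F O :=
  Fintype.sum_equiv ⟨Pool.Agent.Y601.SSE.flip g, Pool.Agent.Y601.SSE.flip g,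
    Pool.Agent.Y601.SSE.flip_flip g, Pool.Agent.Y601.SSE.flip_flip g⟩ _ _ fun _ => rfl

/-- the answer to `g` is independent of the events which do not depend on it -/
lemma indep (f : G → ℝ) (g : G) (P : (G → Bool) → Prop) [DecidablePred P]
    (hP : ∀ O, P (Pool.Agent.Y601.SSE.flip g O) ↔ P O) (b : Bool) :
    ∑ O, (if P O ∧ O g = b then wt f O else 0) =
      (if b = true then f g else 1 - f g) * ∑ O, if P O then wt f O else 0 := by
  obtain ⟨A, hA⟩ : ∃ A : Bool → ℝ, A = fun c => ∑ O, if P O ∧ O g = c then wt' f g O else 0 :=
    ⟨_, rfl⟩
  have h1 : ∀ c, ∑ O, (if P O ∧ O g = c then wt f O else 0) =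
      (if c = true then f g else 1 - f g) * A c := by
    intro c
    rw [hA, mul_sum]
    refine sum_congr rfl fun O _ => ?_
    by_cases h : P O ∧ O g = c
    · rw [if_pos h, if_pos h, wt_eq f g O, h.2]
    · rw [if_neg h, if_neg h, mul_zero]
  have h2 : A true = A false := by
    rw [hA]
    show ∑ O, (if P O ∧ O g = true then wt' f g O else 0) =
      ∑ O, if P O ∧ O g = false then wt' f g O else 0
    rw [← sum_flip g]
    refine sum_congr rfl fun O _ => ?_
    rw [wt'_flip]
    have h3 : (P (Pool.Agent.Y601.SSE.flip g O) ∧ Pool.Agent.Y601.SSE.flip g O g = true) ↔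
        (P O ∧ O g = false) := by
      rw [hP, flip_same]
      cases O g <;> simp
    by_cases h4 : P O ∧ O g = false
    · rw [if_pos h4, if_pos (h3.2 h4)]
    · rw [if_neg h4, if_neg fun h => h4 (h3.1 h)]
  have h3 : ∑ O, (if P O then wt f O else 0) = A true := by
    have h4 : ∑ O, (if P O then wt f O else 0) =
        ∑ O, (if P O ∧ O g = true then wt f O else 0) +
          ∑ O, (if P O ∧ O g = false then wt f O else 0) := by
      rw [← sum_add_distrib]
      refine sum_congr rfl fun O _ => ?_
      by_cases h : P O
      · cases h5 : O g <;> simp [h]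
      · simp [h]
    rw [h4, h1, h1, ← h2]
    simp only [if_true, Bool.false_eq_true, if_false]
    ring
  rw [h1, h3]
  cases b
  · rw [h2]
  · rfl

lemma look_run (O : G → Bool) (g : G) (c : Bool) : ∀ k : ℕ,
    look q g (run O q k) = some c → O g = c
  | 0, h => by simp [run, look] at h
  | k + 1, h => by
      unfold run look at h
      by_cases h1 : q (run O q k) = g
      · rw [if_pos h1] at h
        rw [← h1]
        simpa using h
      · rw [if_neg h1] at h
        exact look_run O g c k h

lemma run_flip (O : G → Bool) (g : G) : ∀ k : ℕ, look q g (run O q k) = none →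
    run (Pool.Agent.Y601.SSE.flip g O) q k = run O q k
  | 0, _ => rfl
  | k + 1, h => by
      unfold run look at h
      by_cases h1 : q (run O q k) = g
      · rw [if_pos h1] at h
        simp at h
      · rw [if_neg h1] at h
        have h2 := run_flip O g k h
        show _ :: _ = _ :: _
        rw [h2, flip_ne h1]

lemma run_flip_iff {g : G} {l : List Bool} {k : ℕ} (hl : look q g l = none) (O : G → Bool) :
    run (Pool.Agent.Y601.SSE.flip g O) q k = l ↔ run O q k = l := by
  constructor
  · intro h
    have h1 : look q g (run (Pool.Agent.Y601.SSE.flip g O) q k) = none := by rw [h]; exact hl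
    have h2 := run_flip (Pool.Agent.Y601.SSE.flip g O) g k h1
    rw [Pool.Agent.Y601.SSE.flip_flip] at h2
    rw [h2, h]
  · intro h
    have h1 : look q g (run O q k) = none := by rw [h]; exact hl
    rw [run_flip O g k h1, h]

/-- the conditional law of the next answer -/
lemma next_law (f : G → ℝ) (q : List Bool → G) (k : ℕ) (l : List Bool) (b : Bool) :
    ∑ O, (if run O q k = l ∧ O (q l) = b then wt f O else 0) =
      kap f q l b * ∑ O, if run O q k = l then wt f O else 0 := by
  unfold kap
  cases hl : look q (q l) l with
  | none => exact indep f (q l) (fun O => run O q k = l) (run_flip_iff hl) b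
  | some c =>
    rw [mul_sum]
    refine sum_congr rfl fun O _ => ?_
    by_cases h : run O q k = l
    · have h1 : O (q l) = c := by
        apply look_run O (q l) c k
        rw [h]
        exact hl
      rw [h1]
      by_cases h2 : c = b <;> simp [h, h2]
    · simp [h]

/-- the law of the run -/
theorem run_law (f : G → ℝ) (q : List Bool → G) : ∀ (k : ℕ) (h : List Bool → ℝ),
    ∑ O, wt f O = 1 → ∑ O, wt f O * h (run O q k) = tot k fun l => mu f q l * h l
  | 0, h, h1 => by
      show ∑ O, wt f O * h [] = 1 * h []
      rw [← sum_mul, h1]
  | k + 1, h, h1 => by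
      have h2 : tot (k + 1) (fun l => mu f q l * h l) =
          tot k fun l => mu f q l * (kap f q l true * h (true :: l) +
            kap f q l false * h (false :: l)) := by
        show tot k _ = tot k _
        refine tot_congr fun l _ => ?_
        show mu f q l * kap f q l true * h (true :: l) + mu f q l * kap f q l false *
          h (false :: l) = _
        ring
      rw [h2, ← run_law f q k _ h1]
      -- split according to the history
      have h3 : ∀ F : (G → Bool) → ℝ, ∑ O, F O =
          ∑ l ∈ univ.image fun O : G → Bool => run O q k,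
            ∑ O, if run O q k = l then F O else 0 := by
        intro F
        rw [← sum_fiberwise_of_maps_to (g := fun O : G → Bool => run O q k)
          (t := univ.image fun O : G → Bool => run O q k) fun O _ => mem_image_of_mem _ (mem_univ O)]
        refine sum_congr rfl fun l _ => ?_
        rw [sum_filter]
      rw [h3, h3 fun O => wt f O * (kap f q (run O q k) true * h (true :: run O q k) +
            kap f q (run O q k) false * h (false :: run O q k))]
      refine sum_congr rfl fun l _ => ?_
      have h4 : ∀ O : G → Bool, (if run O q k = l then wt f O * h (run O q (k + 1)) else 0) =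
          h (true :: l) * (if run O q k = l ∧ O (q l) = true then wt f O else 0) +
          h (false :: l) * (if run O q k = l ∧ O (q l) = false then wt f O else 0) := by
        intro O
        by_cases h5 : run O q k = l
        · have h6 : run O q (k + 1) = O (q l) :: l := by
            show O (q (run O q k)) :: run O q k = _
            rw [h5]
          rw [if_pos h5, h6]
          cases h7 : O (q l)
          · simp [h5]; ring
          · simp [h5]; ring
        · simp [h5]
      simp_rw [h4]
      rw [sum_add_distrib, ← mul_sum, ← mul_sum, next_law, next_law]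
      have h5 : ∀ O : G → Bool, (if run O q k = l then wt f O *
          (kap f q (run O q k) true * h (true :: run O q k) +
            kap f q (run O q k) false * h (false :: run O q k)) else 0) =
          (kap f q l true * h (true :: l) + kap f q l false * h (false :: l)) *
            if run O q k = l then wt f O else 0 := by
        intro O
        by_cases h6 : run O q k = l
        · rw [if_pos h6, if_pos h6, h6]; ring
        · simp [h6]
      simp_rw [h5]
      rw [← mul_sum]
      ring

lemma wt_sum (f : G → ℝ) : ∑ O, wt f O = 1 := by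
  unfold wt
  have h := Finset.prod_univ_sum (fun _ : G => (univ : Finset Bool))
    fun g b => if b = true then f g else 1 - f g
  rw [Fintype.piFinset_univ] at h
  rw [← h]
  refine prod_eq_one fun g _ => ?_
  rw [Fintype.sum_bool]
  simp

end law

end Pool.Agent.Q226.ADA
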