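import Pool.Agent.Q226.ADA.Core

set_option autoImplicit false
set_option linter.unusedSectionVars false

/-! Adaptive reductions of small depth: the lower bound. -/

namespace Pool.Agent.Q226.ADA

open Finset DomAC0 H568R2 Pool.Agent.TH163.AC3 Pool.Agent.Y601 Pool.Agent.Q226.SEN
open scoped Classical

variable {N k : ℕ} {T Λ : Type} [Fintype T]

lemma ov_cmp (ρ σ : Restr (Fin N)) (x : Fin N → Bool) : ov (cmp ρ σ) x = ov ρ (ov σ x) := by
  funext i
  unfold ov H568R2.cmp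
  cases h : ρ i <;> simp

lemma cmp_none {ρ σ : Restr (Fin N)} {i : Fin N} (h : cmp ρ σ i = none) :
    ρ i = none ∧ σ i = none := by
  unfold H568R2.cmp at h
  cases h1 : ρ i with
  | none => rw [h1] at h; exact ⟨rfl, by simpa using h⟩
  | some b => rw [h1] at h; simp at h

/-- one restriction, for fixed coins -/
lemma one_restr (S : Λ → T → Prop) {a b : ℝ} (hab : b < a) (C : List Bool → Circuit (Fin N))
    (out : ∀ l, T → Fin N ⊕ Fin (C l).size) (fin : ∀ l, Fin N ⊕ Fin (C l).size) (h : ℕ)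
    (hh : ∀ l e, l.length < k → (C l).nodeDepth (out l e) ≤ h)
    (hfin : ∀ l, l.length = k → (C l).nodeDepth (fin l) ≤ h)
    (hne : ∀ l x, l.length < k → 1 ≤ size (fun e => (C l).nodeVal x (out l e)))
    {s : ℕ} (hs : 1 ≤ s) {τ1 τ2 : Restr (Fin N)} (hA : GoodA C k s h τ1)
    (hB : GoodB (fun l x e => (C l).nodeVal x (out l e)) k s τ1 τ2) :
    ∑ y : Fin N → Bool, ∑ i ∈ univ.filter (fun i => cmp τ1 τ2 i = none),
      |prob (pr S a b) (fun l e => (C l).nodeVal (ov (cmp τ1 τ2) y) (out l e)) k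
          (fun l => (C l).nodeVal (ov (cmp τ1 τ2) y) (fin l)) -
        prob (pr S a b) (fun l e => (C l).nodeVal (toggle i (ov (cmp τ1 τ2) y)) (out l e)) k
          (fun l => (C l).nodeVal (toggle i (ov (cmp τ1 τ2) y)) (fin l))| ≤
      2 ^ N * (s * (2 * (1 / (a - b)) * k + k * (k - 1) / 2 + 1)) := by
  have hdt : ∀ l (v : Fin N ⊕ Fin (C l).size), l.length ≤ k → (C l).nodeDepth v ≤ h →
      HasDT s (rs (fun x => (C l).nodeVal x v) τ1) :=
    fun l v hl hv => node_dt (C l) hs (hA l hl) v hv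
  have hsens : ∀ l (v : Fin N ⊕ Fin (C l).size) (y : Fin N → Bool), l.length ≤ k →
      (C l).nodeDepth v ≤ h →
      ((univ.filter (fun i => cmp τ1 τ2 i = none)).filter fun i =>
        (C l).nodeVal (toggle i (ov (cmp τ1 τ2) y)) v ≠
          (C l).nodeVal (ov (cmp τ1 τ2) y) v).card ≤ s := by
    intro l v y hl hv
    refine le_trans (card_le_card ?_) (SSE.sens_le (hdt l v hl hv)
      (univ.filter (fun i => cmp τ1 τ2 i = none)) (ov τ2 y))
    intro i hi
    simp only [mem_filter, mem_univ, true_and] at hi ⊢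
    refine ⟨hi.1, ?_⟩
    show (C l).nodeVal (ov τ1 (SSE.flip i (ov τ2 y))) v ≠ (C l).nodeVal (ov τ1 (ov τ2 y)) v
    rw [SSE.ov_flip τ1 i (cmp_none hi.1).1, toggle_sse, ← ov_cmp]
    exact hi.2
  refine cube_bound S hab (univ.filter (fun i => cmp τ1 τ2 i = none)) (cmp τ1 τ2)
    (fun i hi => (mem_filter.1 hi).2) (fun l x e => (C l).nodeVal x (out l e))
    (fun l x => (C l).nodeVal x (fin l)) hne s ?_ ?_ ?_
  · intro l y e hl he
    refine le_trans (card_le_card ?_) (hsens l (out l e) y hl.le (hh l e hl))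
    intro i hi
    rw [mem_filter] at hi ⊢
    refine ⟨hi.1, ?_⟩
    have h1 : (C l).nodeVal (ov (cmp τ1 τ2) y) (out l e) = true := he
    have h2 : (C l).nodeVal (toggle i (ov (cmp τ1 τ2) y)) (out l e) = false := hi.2
    rw [h1, h2]
    simp
  · intro l l' y hl hsf hne'
    refine le_trans (card_le_card ?_) (SSE.sens_le (hB l l' hl hsf hne')
      (univ.filter (fun i => cmp τ1 τ2 i = none)) y)
    intro i hi
    simp only [mem_filter, mem_univ, true_and] at hi ⊢
    refine ⟨hi.1, ?_⟩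
    have h1 : ∀ z, rs (rs (test (fun l x e => (C l).nodeVal x (out l e)) l l') τ1) τ2 z =
        decide (∀ e, (C l').nodeVal (ov (cmp τ1 τ2) z) (out l' e) =
          (C l).nodeVal (ov (cmp τ1 τ2) z) (out l e)) := by
      intro z
      rw [ov_cmp]
      rfl
    rw [h1, h1, SSE.ov_flip _ i hi.1, toggle_sse]
    intro h2
    apply hi.2
    rw [decide_eq_decide] at h2
    rw [funext_iff, funext_iff]
    exact h2.symm
  · intro l y hl
    refine le_trans (card_le_card ?_) (hsens l (fin l) y hl.le (hfin l hl))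
    intro i hi
    rw [mem_filter] at hi ⊢
    exact ⟨hi.1, fun h => hi.2 h.symm⟩

/-- the parameters -/
theorem core (S : Λ → T → Prop) {a b γ : ℝ} (hb : 0 ≤ b) (hab : b < a)
    {R : Type} [Fintype R] [Nonempty R] (C : R → List Bool → Circuit (Fin N))
    (out : ∀ ρ l, T → Fin N ⊕ Fin (C ρ l).size) (fin : ∀ ρ l, Fin N ⊕ Fin (C ρ l).size) (h M : ℕ)
    (hM : ∀ ρ l, l.length ≤ k → (C ρ l).size ≤ M)
    (hh : ∀ ρ l e, l.length < k → (C ρ l).nodeDepth (out ρ l e) ≤ h)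
    (hfin : ∀ ρ l, l.length = k → (C ρ l).nodeDepth (fin ρ l) ≤ h)
    (hne : ∀ ρ l x, l.length < k → 1 ≤ size (fun e => (C ρ l).nodeVal x (out ρ l e)))
    (hred : AdaptivelyReduces S a b k (fun ρ l x e => (C ρ l).nodeVal x (out ρ l e))
      (fun ρ l x => (C ρ l).nodeVal x (fin ρ l)) γ)
    {s : ℕ} (hs : 1 ≤ s)
    (hcond : (2 : ℝ) ^ k * (2 * (h * M) + k) * ((24 * s) ^ h * (48 * s)) ≤ γ * 2 ^ (s + 1)) :
    γ * N ≤ (s * (2 * (1 / (a - b)) * k + k * (k - 1) / 2 + 1)) * ((24 * s) ^ h * (48 * s)) := by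
  obtain ⟨q, hq⟩ : ∃ q : ℝ, q = 1 / (24 * s) := ⟨_, rfl⟩
  obtain ⟨q2, hq2⟩ : ∃ q2 : ℝ, q2 = 1 / (48 * s) := ⟨_, rfl⟩
  have hs0 : (1 : ℝ) ≤ s := by exact_mod_cast hs
  have hq0 : 0 < q := by rw [hq]; positivity
  have hq20 : 0 < q2 := by rw [hq2]; positivity
  have hq1 : q ≤ 1 := by
    rw [hq, div_le_one (by positivity)]
    linarith
  have hq21 : q2 ≤ 1 := by
    rw [hq2, div_le_one (by positivity)]
    linarith
  have hqh : 0 < q ^ h := by positivity
  have hR : (0 : ℝ) < Fintype.card R := by exact_mod_cast Fintype.card_pos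
  obtain ⟨B, hB⟩ : ∃ B : ℝ, B = s * (2 * (1 / (a - b)) * k + k * (k - 1) / 2 + 1) := ⟨_, rfl⟩
  rw [← hB]
  obtain ⟨Z, hZ⟩ : ∃ Z : ℝ, Z = (24 * s) ^ h * (48 * s) := ⟨_, rfl⟩
  rw [← hZ] at hcond ⊢
  have hZ0 : 0 < Z := by rw [hZ]; positivity
  have hinv : q ^ h * q2 * Z = 1 := by
    rw [hZ, hq, hq2, div_pow, one_pow]
    field_simp
  have hw : ∀ c, 0 ≤ wq (q ^ h) c := wq_nonneg hqh.le (pow_le_one₀ hq0.le hq1)
  have hw2 : ∀ c, 0 ≤ wq q2 c := wq_nonneg hq20.le hq21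
  have hf0 := pr_nonneg S a b
  have hf1 := pr_le_one S a b
  have hB0 : 0 ≤ B := by
    rw [hB]
    have : 0 < a - b := by linarith
    have hk : (0 : ℝ) ≤ k * (k - 1) / 2 := by
      rcases Nat.eq_zero_or_pos k with h0 | h0
      · rw [h0]; simp
      · have : (1 : ℝ) ≤ k := by exact_mod_cast h0
        have h2 : (0 : ℝ) ≤ k - 1 := by linarith
        positivity
    positivity
  -- the reduction
  obtain ⟨P, hP⟩ : ∃ P : R → (Fin N → Bool) → ℝ, P = fun ρ x =>
    pout (pr S a b) k (fun ρ l x e => (C ρ l).nodeVal x (out ρ l e))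
      (fun ρ l x => (C ρ l).nodeVal x (fin ρ l)) ρ x := ⟨_, rfl⟩
  have hP0 : ∀ ρ x, 0 ≤ P ρ x := fun ρ x => by rw [hP]; exact prob_nonneg hf0 hf1 _ _ _
  have hP1 : ∀ ρ x, P ρ x ≤ 1 := fun ρ x => by rw [hP]; exact prob_le_one hf0 hf1 _ _ _
  have hpair : ∀ x i, 2 * γ * Fintype.card R ≤ ∑ ρ, |P ρ x - P ρ (toggle i x)| := by
    intro x i
    rw [hP]
    exact pair S hb hab _ _ hred x i
  obtain ⟨W, hW⟩ : ∃ W : R → Restr (Fin N) → Restr (Fin N) → ℝ, W = fun ρ τ1 τ2 =>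
    (if ¬ GoodA (C ρ) k s h τ1 then (1 : ℝ) else 0) +
      if GoodA (C ρ) k s h τ1 ∧
        ¬ GoodB (fun l x e => (C ρ l).nodeVal x (out ρ l e)) k s τ1 τ2 then 1 else 0 := ⟨_, rfl⟩
  -- one restriction
  have hone : ∀ τ1 τ2 : Restr (Fin N),
      2 * γ * Fintype.card R * ((univ.filter fun i => cmp τ1 τ2 i = none).card : ℝ) ≤
        ∑ ρ : R, (B + N * W ρ τ1 τ2) := by
    intro τ1 τ2
    obtain ⟨J, hJ⟩ : ∃ J : Finset (Fin N), J = univ.filter fun i => cmp τ1 τ2 i = none := ⟨_, rfl⟩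
    rw [← hJ]
    have h1 : ∑ y : Fin N → Bool, ∑ _i ∈ J, 2 * γ * Fintype.card R ≤
        ∑ ρ : R, ∑ y : Fin N → Bool, ∑ i ∈ J,
          |P ρ (ov (cmp τ1 τ2) y) - P ρ (toggle i (ov (cmp τ1 τ2) y))| := by
      rw [sum_comm (s := (univ : Finset R))]
      refine sum_le_sum fun y _ => ?_
      rw [sum_comm (s := (univ : Finset R))]
      exact sum_le_sum fun i _ => hpair _ i
    have h2 : ∀ ρ : R, ∑ y : Fin N → Bool, ∑ i ∈ J,
          |P ρ (ov (cmp τ1 τ2) y) - P ρ (toggle i (ov (cmp τ1 τ2) y))| ≤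
        2 ^ N * (B + N * W ρ τ1 τ2) := by
      intro ρ
      by_cases hG : GoodA (C ρ) k s h τ1 ∧
        GoodB (fun l x e => (C ρ l).nodeVal x (out ρ l e)) k s τ1 τ2
      · have h3 := one_restr S hab (C ρ) (out ρ) (fin ρ) h (hh ρ) (hfin ρ) (hne ρ) hs hG.1 hG.2
        rw [← hB, ← hJ] at h3
        have h4 : W ρ τ1 τ2 = 0 := by
          rw [hW]
          simp [hG.1, hG.2]
        rw [h4, mul_zero, add_zero]
        rw [hP]
        exact h3
      · have h4 : 1 ≤ W ρ τ1 τ2 := by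
          rw [hW]
          by_cases hA : GoodA (C ρ) k s h τ1
          · have hB' : ¬ GoodB (fun l x e => (C ρ l).nodeVal x (out ρ l e)) k s τ1 τ2 :=
              fun h => hG ⟨hA, h⟩
            simp [hA, hB']
          · simp [hA]
        have h5 : ∑ y : Fin N → Bool, ∑ i ∈ J,
            |P ρ (ov (cmp τ1 τ2) y) - P ρ (toggle i (ov (cmp τ1 τ2) y))| ≤
            ∑ y : Fin N → Bool, ∑ i ∈ J, (1 : ℝ) := by
          refine sum_le_sum fun y _ => sum_le_sum fun i _ => ?_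
          have e1 := hP0 ρ (ov (cmp τ1 τ2) y)
          have e2 := hP1 ρ (ov (cmp τ1 τ2) y)
          have e3 := hP0 ρ (toggle i (ov (cmp τ1 τ2) y))
          have e4 := hP1 ρ (toggle i (ov (cmp τ1 τ2) y))
          rw [abs_le]
          constructor <;> linarith
        refine h5.trans ?_
        rw [sum_const, sum_const, card_univ, Fintype.card_fun, Fintype.card_bool,
          Fintype.card_fin, nsmul_eq_mul, nsmul_eq_mul, mul_one]
        push_cast
        refine mul_le_mul_of_nonneg_left ?_ (by positivity)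
        have h6 : (J.card : ℝ) ≤ N := by
          have := card_le_univ J
          rw [Fintype.card_fin] at this
          exact_mod_cast this
        have h7 : (N : ℝ) * 1 ≤ N * W ρ τ1 τ2 := mul_le_mul_of_nonneg_left h4 (Nat.cast_nonneg _)
        linarith
    have h3 := h1.trans (sum_le_sum fun ρ _ => h2 ρ)
    rw [sum_const, sum_const, card_univ, Fintype.card_fun, Fintype.card_bool, Fintype.card_fin,
      nsmul_eq_mul, nsmul_eq_mul, ← mul_sum] at h3
    push_cast at h3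
    have h4 : (2 : ℝ) ^ N * (2 * γ * Fintype.card R * J.card) ≤
        2 ^ N * ∑ ρ : R, (B + N * W ρ τ1 τ2) := by linarith
    exact le_of_mul_le_mul_left h4 (by positivity)
  -- the expectation over the second restriction
  obtain ⟨c2, hc2⟩ : ∃ c2 : ℝ, c2 = 2 ^ k * (k * (1 / 2) ^ (s + 1)) := ⟨_, rfl⟩
  obtain ⟨c1, hc1⟩ : ∃ c1 : ℝ, c1 = 2 ^ (k + 1) * (h * M * (1 / 2) ^ (s + 1)) := ⟨_, rfl⟩
  have hWin : ∀ (ρ : R) (τ1 : Restr (Fin N)), Ex (wq q2) (fun τ2 => W ρ τ1 τ2) ≤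
      (if ¬ GoodA (C ρ) k s h τ1 then (1 : ℝ) else 0) + c2 := by
    intro ρ τ1
    rw [hW]
    simp only
    rw [Ex_add, Ex_const (wq_sum q2)]
    refine add_le_add le_rfl ?_
    by_cases hA : GoodA (C ρ) k s h τ1
    · have h1 := badB (k := k) (fun l x e => (C ρ l).nodeVal x (out ρ l e)) hs hq2 τ1
        (fun l e hl => node_dt (C ρ l) hs (hA l hl.le) (out ρ l e) (hh ρ l e hl))
      rw [hc2]
      refine le_trans (le_of_eq ?_) h1
      congr 1
      funext τ2
      simp [hA]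
    · have h1 : (fun τ2 : Restr (Fin N) => if GoodA (C ρ) k s h τ1 ∧
          ¬ GoodB (fun l x e => (C ρ l).nodeVal x (out ρ l e)) k s τ1 τ2 then (1 : ℝ) else 0) =
          fun _ => 0 := by
        funext τ2
        simp [hA]
      rw [h1, Ex_const (wq_sum q2), hc2]
      positivity
  have hin : ∀ τ1 : Restr (Fin N), Ex (wq q2) (fun τ2 : Restr (Fin N) =>
      2 * γ * Fintype.card R * ((univ.filter fun i => cmp τ1 τ2 i = none).card : ℝ)) ≤
      ∑ ρ : R, (B + N * ((if ¬ GoodA (C ρ) k s h τ1 then (1 : ℝ) else 0) + c2)) := by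
    intro τ1
    refine (Ex_mono hw2 (hone τ1)).trans ?_
    rw [Ex_sum]
    refine sum_le_sum fun ρ _ => ?_
    rw [Ex_add, Ex_const (wq_sum q2), Ex_smul]
    exact add_le_add le_rfl (mul_le_mul_of_nonneg_left (hWin ρ τ1) (Nat.cast_nonneg _))
  -- the expectation over the first restriction
  have hout := Ex_mono (I := Fin N) hw hin
  rw [← wq_cmp (q ^ h) q2 fun τ : Restr (Fin N) =>
    2 * γ * Fintype.card R * ((univ.filter fun i => τ i = none).card : ℝ), Ex_smul] at hout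
  have hstars : Ex (wq (q ^ h * q2)) (fun τ : Restr (Fin N) =>
      ((univ.filter fun i => τ i = none).card : ℝ)) = N * (q ^ h * q2) := by
    have e1 : (fun τ : Restr (Fin N) => ((univ.filter fun i => τ i = none).card : ℝ)) =
        fun τ : Restr (Fin N) => ∑ i, if τ i = none then (1 : ℝ) else 0 := by
      funext τ
      rw [card_filter]
      push_cast
      rfl
    rw [e1, Ex_sum univ (wq (q ^ h * q2)) fun i (τ : Restr (Fin N)) =>
      if τ i = none then (1 : ℝ) else 0]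
    rw [sum_congr rfl fun i _ => SSE.ex_star (p := q ^ h * q2) i, sum_const, nsmul_eq_mul,
      card_univ, Fintype.card_fin]
  rw [hstars, Ex_sum] at hout
  have hterm : ∀ ρ : R, Ex (wq (q ^ h)) (fun τ1 : Restr (Fin N) =>
      B + N * ((if ¬ GoodA (C ρ) k s h τ1 then (1 : ℝ) else 0) + c2)) ≤ B + N * (c1 + c2) := by
    intro ρ
    rw [Ex_add, Ex_const (wq_sum _), Ex_smul, Ex_add, Ex_const (wq_sum _)]
    have h1 := badA (C ρ) (hM ρ) hs hq (h := h)
    rw [← hc1] at h1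
    refine add_le_add le_rfl (mul_le_mul_of_nonneg_left (add_le_add h1 le_rfl) (Nat.cast_nonneg _))
  have hfinal := hout.trans (sum_le_sum fun ρ _ => hterm ρ)
  rw [sum_const, card_univ, nsmul_eq_mul] at hfinal
  have h1 : (2 * γ * (N * (q ^ h * q2))) * Fintype.card R ≤
      (B + N * (c1 + c2)) * Fintype.card R := by linarith
  have h2 := le_of_mul_le_mul_right h1 hR
  have h3 : c1 + c2 ≤ γ * (q ^ h * q2) := by
    have e1 : ((1 : ℝ) / 2) ^ (s + 1) * 2 ^ (s + 1) = 1 := by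
      rw [← mul_pow]; norm_num
    have h4 := mul_le_mul_of_nonneg_left hcond
      (show (0 : ℝ) ≤ (1 / 2) ^ (s + 1) * (q ^ h * q2) by positivity)
    have e2 : (1 / 2 : ℝ) ^ (s + 1) * (q ^ h * q2) * (2 ^ k * (2 * (h * M) + k) * Z) =
        (c1 + c2) * (q ^ h * q2 * Z) := by
      rw [hc1, hc2, pow_succ (2 : ℝ) k]
      ring
    have e3 : (1 / 2 : ℝ) ^ (s + 1) * (q ^ h * q2) * (γ * 2 ^ (s + 1)) =
        γ * (q ^ h * q2) * ((1 / 2) ^ (s + 1) * 2 ^ (s + 1)) := by ring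
    rw [e2, e3, hinv, e1, mul_one, mul_one] at h4
    exact h4
  have hN : (0 : ℝ) ≤ N := Nat.cast_nonneg _
  have h5 := mul_le_mul_of_nonneg_left h3 hN
  have h6 : γ * N * (q ^ h * q2) ≤ B := by linarith
  have h7 := mul_le_mul_of_nonneg_right h6 hZ0.le
  rw [mul_assoc (γ * N), hinv, mul_one] at h7
  exact h7

end Pool.Agent.Q226.ADA
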