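import Pool.Agent.Q226.ADA.Cube

set_option autoImplicit false
set_option linter.unusedSectionVars false

/-! Nonadaptive reductions of small depth to instances of variable size. -/

namespace Pool.Agent.Q226.ADA

open Finset DomAC0 H568R2 Pool.Agent.TH163.AC3 Pool.Agent.Y601 Pool.Agent.Q226.SEN
open scoped Classical

variable {N k : ℕ} {T Λ : Type} [Fintype T]

/-- the threshold oracle -/
noncomputable def thrO (S : Λ → T → Prop) (a b θ : ℝ) (g : T → Bool) : Bool :=
  decide (θ ≤ pr S a b g)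

lemma thrO_right (S : Λ → T → Prop) {a b θ : ℝ} (hb : 0 ≤ b) (hab : b < a) (h1 : 0 < θ)
    (h2 : θ ≤ 1) : Right S a b (thrO S a b θ) := by
  intro g hg
  constructor
  · intro hy
    unfold thrO
    rw [pr_yes S hab hg hy, decide_eq_true_eq]
    exact h2
  · intro hn
    unfold thrO
    rw [pr_no S hb hab hg hn, decide_eq_false_iff_not, not_le]
    exact h1

/-- The law for one input and one bit. -/
theorem pairN (S : Λ → T → Prop) {a b γ : ℝ} (hb : 0 ≤ b) (hab : b < a) {R : Type}
    [Fintype R] (query : R → Fin k → (Fin N → Bool) → T → Bool)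
    (eval : R → (Fin k → Bool) → Bool) (hred : NonadaptivelyReduces S a b query eval γ)
    (x : Fin N → Bool) (i : Fin N) :
    2 * γ * Fintype.card R ≤
      ∑ t : R × Fin k, |pr S a b (query t.1 t.2 x) - pr S a b (query t.1 t.2 (toggle i x))| := by
  have h0 := cover (univ : Finset (R × Fin k))
    (fun t => min (pr S a b (query t.1 t.2 x)) (pr S a b (query t.1 t.2 (toggle i x))))
    (fun t => max (pr S a b (query t.1 t.2 x)) (pr S a b (query t.1 t.2 (toggle i x))))
    (fun t _ => min_le_max) (A := 0) (B := 1) (c := 2 * γ * Fintype.card R) zero_le_one ?_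
  · rw [sub_zero, mul_one] at h0
    refine h0.trans (sum_le_sum fun t _ => ?_)
    rw [max_sub_min_eq_abs]
    exact (abs_sub_comm _ _).le
  · intro θ h1 h2
    have hO := thrO_right S hb hab h1 h2
    have hx := hred _ hO x
    have hx' := hred _ hO (toggle i x)
    set P := univ.filter fun ρ => eval ρ (fun j => thrO S a b θ (query ρ j x)) = par x with hP
    set P' := univ.filter fun ρ => eval ρ (fun j => thrO S a b θ (query ρ j (toggle i x))) =
      par (toggle i x) with hP'
    have hinter : 2 * γ * Fintype.card R ≤ ((P ∩ P').card : ℝ) := by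
      have h3 := card_union_add_card_inter P P'
      have h4 : (P ∪ P').card ≤ Fintype.card R := card_le_univ _
      have h5 : ((P ∪ P').card : ℝ) + (P ∩ P').card = P.card + P'.card := by exact_mod_cast h3
      have h6 : ((P ∪ P').card : ℝ) ≤ Fintype.card R := by exact_mod_cast h4
      linarith
    refine hinter.trans ?_
    rw [Fintype.sum_prod_type]
    have h7 : ((P ∩ P').card : ℝ) = ∑ ρ ∈ P ∩ P', (1 : ℝ) := by
      rw [sum_const, nsmul_eq_mul, mul_one]
    rw [h7]
    refine le_trans (sum_le_sum fun ρ hρ => ?_) (sum_le_sum_of_subset_of_nonneg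
      (subset_univ (P ∩ P')) fun ρ _ _ => sum_nonneg fun j _ => by split_ifs <;> norm_num)
    rw [mem_inter, hP, hP', mem_filter, mem_filter] at hρ
    obtain ⟨⟨_, g1⟩, ⟨_, g2⟩⟩ := hρ
    -- some answer differs
    obtain ⟨j, hj⟩ : ∃ j, thrO S a b θ (query ρ j x) ≠ thrO S a b θ (query ρ j (toggle i x)) := by
      by_contra hcon
      push Not at hcon
      have h10 : (fun j => thrO S a b θ (query ρ j x)) =
          fun j => thrO S a b θ (query ρ j (toggle i x)) := funext hcon
      rw [h10, g2, par_toggle] at g1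
      cases par x <;> simp at g1
    refine le_trans ?_ (single_le_sum (f := fun j =>
      (if min (pr S a b (query ρ j x)) (pr S a b (query ρ j (toggle i x))) < θ ∧
        θ ≤ max (pr S a b (query ρ j x)) (pr S a b (query ρ j (toggle i x))) then (1 : ℝ)
        else 0)) (fun j _ => by split_ifs <;> norm_num) (mem_univ j))
    rw [if_pos]
    unfold thrO at hj
    by_cases g3 : θ ≤ pr S a b (query ρ j x)
    · have g4 : ¬ θ ≤ pr S a b (query ρ j (toggle i x)) := by
        intro g5
        exact hj (by simp [g3, g5])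
      push Not at g4
      exact ⟨lt_of_le_of_lt (min_le_right _ _) g4, g3.trans (le_max_left _ _)⟩
    · have g4 : θ ≤ pr S a b (query ρ j (toggle i x)) := by
        by_contra g5
        exact hj (by simp [g3, g5])
      push Not at g3
      exact ⟨lt_of_le_of_lt (min_le_left _ _) g3, g4.trans (le_max_right _ _)⟩

/-- the subcube of a restriction, for fixed coins and one query -/
lemma cubeN (S : Λ → T → Prop) {a b : ℝ} (hab : b < a) (J : Finset (Fin N))
    (τ : Restr (Fin N)) (hJ : ∀ i ∈ J, τ i = none) (query : (Fin N → Bool) → T → Bool)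
    (hne : ∀ x, 1 ≤ size (query x)) (s : ℕ)
    (hs1 : ∀ y e, query (ov τ y) e = true →
      (J.filter fun i => query (toggle i (ov τ y)) e = false).card ≤ s) :
    ∑ y : Fin N → Bool, ∑ i ∈ J,
      |pr S a b (query (ov τ y)) - pr S a b (query (toggle i (ov τ y)))| ≤
      2 ^ N * (2 * (1 / (a - b)) * s) := by
  have hc : 0 < a - b := by linarith
  have hL : 0 ≤ 1 / (a - b) := by positivity
  have hfr : ∀ y, ∑ i ∈ J, frac (query (ov τ y)) (query (toggle i (ov τ y))) ≤ s := by
    intro y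
    have h1 := gone_sum_le query (ov τ y) J (s := s) fun e he => hs1 y e he
    have h2 : ∑ i ∈ J, frac (query (ov τ y)) (query (toggle i (ov τ y))) =
        ((∑ i ∈ J, gone (query (ov τ y)) (query (toggle i (ov τ y))) : ℕ) : ℝ) /
          size (query (ov τ y)) := by
      push_cast
      rw [sum_div]
      rfl
    rw [h2]
    have h3 : (0 : ℝ) < size (query (ov τ y)) := by
      have := hne (ov τ y)
      exact_mod_cast this
    rw [div_le_iff₀ h3]
    exact_mod_cast h1
  have hinv : ∀ i ∈ J, ∑ y : Fin N → Bool, frac (query (toggle i (ov τ y))) (query (ov τ y)) =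
      ∑ y : Fin N → Bool, frac (query (ov τ y)) (query (toggle i (ov τ y))) := by
    intro i hi
    refine Fintype.sum_equiv (toggleE i) _ _ fun y => ?_
    show frac (query (toggle i (ov τ y))) (query (ov τ y)) =
      frac (query (ov τ (toggle i y))) (query (toggle i (ov τ (toggle i y))))
    rw [ov_toggle (hJ i hi), toggle_toggle]
  calc ∑ y : Fin N → Bool, ∑ i ∈ J,
      |pr S a b (query (ov τ y)) - pr S a b (query (toggle i (ov τ y)))|
      ≤ ∑ y : Fin N → Bool, ∑ i ∈ J, 1 / (a - b) *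
          (frac (query (ov τ y)) (query (toggle i (ov τ y))) +
            frac (query (toggle i (ov τ y))) (query (ov τ y))) :=
        sum_le_sum fun y _ => sum_le_sum fun i _ => pr_lip S hab (hne _) (hne _)
    _ = 1 / (a - b) * (∑ y : Fin N → Bool, ∑ i ∈ J,
          frac (query (ov τ y)) (query (toggle i (ov τ y))) +
          ∑ i ∈ J, ∑ y : Fin N → Bool, frac (query (toggle i (ov τ y))) (query (ov τ y))) := by
        simp only [← mul_sum, sum_add_distrib]
        congr 2
        exact sum_comm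
    _ = 1 / (a - b) * (2 * ∑ y : Fin N → Bool, ∑ i ∈ J,
          frac (query (ov τ y)) (query (toggle i (ov τ y)))) := by
        rw [sum_congr rfl hinv, sum_comm (s := J)]
        ring
    _ ≤ 1 / (a - b) * (2 * ∑ _y : Fin N → Bool, (s : ℝ)) := by
        refine mul_le_mul_of_nonneg_left ?_ hL
        exact mul_le_mul_of_nonneg_left (sum_le_sum fun y _ => hfr y) (by norm_num)
    _ = _ := by
        rw [sum_const, card_univ, Fintype.card_fun, Fintype.card_bool, Fintype.card_fin,
          nsmul_eq_mul]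
        push_cast
        ring

/-- the parameters -/
theorem coreN (S : Λ → T → Prop) {a b γ : ℝ} (hb : 0 ≤ b) (hab : b < a)
    {R : Type} [Fintype R] [Nonempty R] (C : R → Circuit (Fin N))
    (out : ∀ ρ, Fin k → T → Fin N ⊕ Fin (C ρ).size) (h M : ℕ)
    (hM : ∀ ρ, (C ρ).size ≤ M) (hh : ∀ ρ j e, (C ρ).nodeDepth (out ρ j e) ≤ h)
    (hne : ∀ ρ j x, 1 ≤ size (fun e => (C ρ).nodeVal x (out ρ j e)))
    (eval : R → (Fin k → Bool) → Bool)
    (hred : NonadaptivelyReduces S a b (fun ρ j x e => (C ρ).nodeVal x (out ρ j e)) eval γ)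
    {s : ℕ} (hs : 1 ≤ s) (hcond : (k : ℝ) * (h * M) * (24 * s) ^ h ≤ γ * 2 ^ (s + 1)) :
    γ * (a - b) * N ≤ k * (2 * s) * (24 * s) ^ h := by
  obtain ⟨q, hq⟩ : ∃ q : ℝ, q = 1 / (24 * s) := ⟨_, rfl⟩
  have hs0 : (1 : ℝ) ≤ s := by exact_mod_cast hs
  have hc : 0 < a - b := by linarith
  have hq0 : 0 < q := by rw [hq]; positivity
  have hq1 : q ≤ 1 / 3 := by
    rw [hq, div_le_div_iff₀ (by positivity) (by norm_num)]
    linarith
  have h12 : (12 * s * q : ℝ) = 1 / 2 := by rw [hq]; field_simp; norm_num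
  have hqh : 0 < q ^ h := by positivity
  have hinv : q ^ h * (24 * s) ^ h = 1 := by
    rw [← mul_pow, hq]
    have : (1 : ℝ) / (24 * s) * (24 * s) = 1 := by field_simp
    rw [this, one_pow]
  have hR : (0 : ℝ) < Fintype.card R := by exact_mod_cast Fintype.card_pos
  have hw : ∀ c, 0 ≤ wq (q ^ h) c :=
    wq_nonneg hqh.le (pow_le_one₀ hq0.le (by linarith))
  have hf0 := pr_nonneg S a b
  have hf1 := pr_le_one S a b
  -- the expectation of the number of stars
  have hstars : Ex (wq (q ^ h)) (fun τ : Restr (Fin N) =>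
      ((univ.filter fun i => τ i = none).card : ℝ)) = N * q ^ h := by
    have e1 : (fun τ : Restr (Fin N) => ((univ.filter fun i => τ i = none).card : ℝ)) =
        fun τ : Restr (Fin N) => ∑ i, if τ i = none then (1 : ℝ) else 0 := by
      funext τ
      rw [card_filter]
      push_cast
      rfl
    rw [e1, Ex_sum univ (wq (q ^ h)) fun i (τ : Restr (Fin N)) =>
      if τ i = none then (1 : ℝ) else 0]
    rw [sum_congr rfl fun i _ => SSE.ex_star (p := q ^ h) i, sum_const, nsmul_eq_mul, card_univ,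
      Fintype.card_fin]
  obtain ⟨L, hL⟩ : ∃ L : ℝ, L = 2 * (1 / (a - b)) * s := ⟨_, rfl⟩
  have hL0 : 0 ≤ L := by rw [hL]; positivity
  -- one restriction
  have hone : ∀ τ : Restr (Fin N),
      2 * γ * Fintype.card R * ((univ.filter fun i => τ i = none).card : ℝ) ≤
        Fintype.card R * (k * L) +
          ∑ ρ : R, (k * N : ℝ) * (if ¬ Shallow (C ρ) s h τ then (1 : ℝ) else 0) := by
    intro τ
    obtain ⟨J, hJ⟩ : ∃ J : Finset (Fin N), J = univ.filter fun i => τ i = none := ⟨_, rfl⟩
    rw [← hJ]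
    have h1 : ∑ y : Fin N → Bool, ∑ _i ∈ J, 2 * γ * Fintype.card R ≤
        ∑ t : R × Fin k, ∑ y : Fin N → Bool, ∑ i ∈ J,
          |pr S a b (fun e => (C t.1).nodeVal (ov τ y) (out t.1 t.2 e)) -
            pr S a b (fun e => (C t.1).nodeVal (toggle i (ov τ y)) (out t.1 t.2 e))| := by
      rw [sum_comm (s := (univ : Finset (R × Fin k)))]
      refine sum_le_sum fun y _ => ?_
      rw [sum_comm (s := (univ : Finset (R × Fin k)))]
      exact sum_le_sum fun i _ => pairN S hb hab _ eval hred _ i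
    have h2 : ∀ t : R × Fin k, ∑ y : Fin N → Bool, ∑ i ∈ J,
          |pr S a b (fun e => (C t.1).nodeVal (ov τ y) (out t.1 t.2 e)) -
            pr S a b (fun e => (C t.1).nodeVal (toggle i (ov τ y)) (out t.1 t.2 e))| ≤
        2 ^ N * (L + N * (if ¬ Shallow (C t.1) s h τ then (1 : ℝ) else 0)) := by
      intro t
      by_cases hS : Shallow (C t.1) s h τ
      · have h3 := cubeN S hab J τ (fun i hi => by rw [hJ] at hi; exact (mem_filter.1 hi).2)
          (fun x e => (C t.1).nodeVal x (out t.1 t.2 e)) (fun x => hne t.1 t.2 x) s ?_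
        · rw [← hL] at h3
          simpa [hS] using h3
        · intro y e he
          have h5 := SSE.sens_le (node_dt (C t.1) hs hS (out t.1 t.2 e) (hh t.1 t.2 e)) J y
          refine le_trans (card_le_card ?_) h5
          intro i hi
          rw [mem_filter] at hi ⊢
          refine ⟨hi.1, ?_⟩
          have hi' : τ i = none := by
            have := hi.1
            rw [hJ, mem_filter] at this
            exact this.2
          show (C t.1).nodeVal (ov τ (SSE.flip i y)) (out t.1 t.2 e) ≠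
            (C t.1).nodeVal (ov τ y) (out t.1 t.2 e)
          rw [SSE.ov_flip τ i hi', toggle_sse]
          have e1 : (C t.1).nodeVal (ov τ y) (out t.1 t.2 e) = true := he
          have e2 : (C t.1).nodeVal (toggle i (ov τ y)) (out t.1 t.2 e) = false := hi.2
          rw [e1, e2]
          simp
      · have h5 : ∑ y : Fin N → Bool, ∑ i ∈ J,
            |pr S a b (fun e => (C t.1).nodeVal (ov τ y) (out t.1 t.2 e)) -
              pr S a b (fun e => (C t.1).nodeVal (toggle i (ov τ y)) (out t.1 t.2 e))| ≤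
            ∑ y : Fin N → Bool, ∑ i ∈ J, (1 : ℝ) := by
          refine sum_le_sum fun y _ => sum_le_sum fun i _ => ?_
          have e1 := hf0 (fun e => (C t.1).nodeVal (ov τ y) (out t.1 t.2 e))
          have e2 := hf1 (fun e => (C t.1).nodeVal (ov τ y) (out t.1 t.2 e))
          have e3 := hf0 (fun e => (C t.1).nodeVal (toggle i (ov τ y)) (out t.1 t.2 e))
          have e4 := hf1 (fun e => (C t.1).nodeVal (toggle i (ov τ y)) (out t.1 t.2 e))
          rw [abs_le]
          constructor <;> linarith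
        refine h5.trans ?_
        rw [sum_const, sum_const, card_univ, Fintype.card_fun, Fintype.card_bool,
          Fintype.card_fin, nsmul_eq_mul, nsmul_eq_mul, mul_one, if_pos hS, mul_one]
        push_cast
        refine mul_le_mul_of_nonneg_left ?_ (by positivity)
        have h6 : (J.card : ℝ) ≤ N := by
          have := card_le_univ J
          rw [Fintype.card_fin] at this
          exact_mod_cast this
        linarith
    have h3 := h1.trans (sum_le_sum fun t _ => h2 t)
    rw [sum_const, sum_const, card_univ, Fintype.card_fun, Fintype.card_bool, Fintype.card_fin,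
      nsmul_eq_mul, nsmul_eq_mul, ← mul_sum, Fintype.sum_prod_type] at h3
    push_cast at h3
    have h4 : (2 : ℝ) ^ N * (2 * γ * Fintype.card R * J.card) ≤
        2 ^ N * (Fintype.card R * (k * L) +
          ∑ ρ : R, (k * N : ℝ) * (if ¬ Shallow (C ρ) s h τ then (1 : ℝ) else 0)) := by
      refine le_trans (le_of_eq (by ring)) (h3.trans (le_of_eq ?_))
      congr 1
      have e : ∀ ρ : R, ∑ _j : Fin k, (L + N * (if ¬ Shallow (C ρ) s h τ then (1 : ℝ) else 0)) =
          k * L + (k * N : ℝ) * (if ¬ Shallow (C ρ) s h τ then (1 : ℝ) else 0) := by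
        intro ρ
        rw [sum_const, card_univ, Fintype.card_fin, nsmul_eq_mul]
        ring
      rw [sum_congr rfl fun ρ _ => e ρ, sum_add_distrib, sum_const, card_univ, nsmul_eq_mul]
    exact le_of_mul_le_mul_left h4 (by positivity)
  -- the expectation
  have hE := Ex_mono (I := Fin N) hw hone
  rw [Ex_smul, hstars, Ex_add, Ex_const (wq_sum _), Ex_sum] at hE
  have hbad : ∀ ρ : R, Ex (wq (q ^ h)) (fun τ : Restr (Fin N) =>
      (k * N : ℝ) * (if ¬ Shallow (C ρ) s h τ then (1 : ℝ) else 0)) ≤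
      (k * N : ℝ) * (h * M * (1 / 2) ^ (s + 1)) := by
    intro ρ
    rw [Ex_smul]
    apply mul_le_mul_of_nonneg_left _ (by positivity)
    have h1 := collapse' (C ρ) hq0.le hq1 hs h
    rw [h12] at h1
    refine h1.trans ?_
    have h2 : ((C ρ).size : ℝ) ≤ M := by exact_mod_cast hM ρ
    gcongr
  have hE2 := hE.trans (add_le_add le_rfl (sum_le_sum fun ρ (_ : ρ ∈ univ) => hbad ρ))
  rw [sum_const, card_univ, nsmul_eq_mul] at hE2
  have h5 : (2 * γ * (N * q ^ h)) * Fintype.card R ≤
      (k * L + k * N * (h * M * (1 / 2) ^ (s + 1))) * Fintype.card R := by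
    linarith
  have h6 := le_of_mul_le_mul_right h5 (by positivity)
  have h7 : (k : ℝ) * (h * M) * (1 / 2) ^ (s + 1) ≤ γ * q ^ h := by
    have e1 : ((1 : ℝ) / 2) ^ (s + 1) * 2 ^ (s + 1) = 1 := by
      rw [← mul_pow]; norm_num
    have h8 := mul_le_mul_of_nonneg_left hcond
      (show (0 : ℝ) ≤ (1 / 2) ^ (s + 1) * q ^ h by positivity)
    have e2 : (1 / 2 : ℝ) ^ (s + 1) * q ^ h * (k * (h * M) * (24 * s) ^ h) =
        k * (h * M) * (1 / 2) ^ (s + 1) * (q ^ h * (24 * s) ^ h) := by ring
    have e3 : (1 / 2 : ℝ) ^ (s + 1) * q ^ h * (γ * 2 ^ (s + 1)) =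
        γ * q ^ h * ((1 / 2) ^ (s + 1) * 2 ^ (s + 1)) := by ring
    rw [e2, e3, hinv, e1, mul_one, mul_one] at h8
    exact h8
  have hN : (0 : ℝ) ≤ N := Nat.cast_nonneg _
  have h8 : (k : ℝ) * N * (h * M * (1 / 2) ^ (s + 1)) ≤ γ * q ^ h * N := by
    have := mul_le_mul_of_nonneg_right h7 hN
    linarith
  have h9 : γ * N * q ^ h ≤ k * L := by linarith
  have h10 := mul_le_mul_of_nonneg_right h9 (show (0 : ℝ) ≤ (24 * s) ^ h by positivity)
  rw [mul_assoc (γ * N), hinv, mul_one] at h10
  have h11 := mul_le_mul_of_nonneg_right h10 hc.le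
  have h12 : k * L * (24 * s) ^ h * (a - b) = k * (2 * s) * (24 * s) ^ h := by
    rw [hL]
    field_simp
  rw [h12] at h11
  linarith

/-- randomised nonadaptive reductions of small depth from parity must be large -/
theorem mainN (h : ℕ) : ∃ X0 : ℝ, ∀ {N k M : ℕ} {T Λ R : Type} [Fintype T] [Fintype R]
    [Nonempty R] (S : Λ → T → Prop) (a b γ : ℝ) (C : R → Circuit (Fin N))
    (out : ∀ ρ, Fin k → T → Fin N ⊕ Fin (C ρ).size) (eval : R → (Fin k → Bool) → Bool),
    0 ≤ b → b < a → 0 < γ → 1 ≤ k → (∀ ρ, (C ρ).size ≤ M) →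
    (∀ ρ j e, (C ρ).nodeDepth (out ρ j e) ≤ h) →
    (∀ ρ j x, 1 ≤ size (fun e => (C ρ).nodeVal x (out ρ j e))) →
    NonadaptivelyReduces S a b (fun ρ j x e => (C ρ).nodeVal x (out ρ j e)) eval γ →
    X0 ≤ γ * (a - b) * N / k →
    γ * (2 : ℝ) ^ ((γ * (a - b) * N / k) ^ (1 / (h + 1 : ℝ)) / 100) ≤ k * M := by
  obtain ⟨Y0, hY48, hY0⟩ := SSE.exists_large h
  refine ⟨Y0 ^ (h + 1), ?_⟩
  intro N k M T Λ R _ _ _ S a b γ C out eval hb hab hγ hk hM hh hne hred hX
  have hkR : (0 : ℝ) < k := by exact_mod_cast hk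
  have hκ : 0 < γ * (a - b) := mul_pos hγ (by linarith)
  obtain ⟨X, hXd⟩ : ∃ X : ℝ, X = γ * (a - b) * N / k := ⟨_, rfl⟩
  rw [← hXd] at hX ⊢
  obtain ⟨Y, hYd⟩ : ∃ Y : ℝ, Y = X ^ (1 / (h + 1 : ℝ)) := ⟨_, rfl⟩
  rw [← hYd]
  have hY00 : (0 : ℝ) ≤ Y0 := by linarith
  have hXpos : 0 ≤ X := le_trans (by positivity) hX
  have hYX : Y ^ (h + 1) = X := by
    rw [hYd, ← Real.rpow_natCast, ← Real.rpow_mul hXpos]
    push_cast
    rw [one_div, inv_mul_cancel₀ (by positivity), Real.rpow_one]
  have hYn : 0 ≤ Y := by rw [hYd]; exact Real.rpow_nonneg hXpos _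
  have hYY : Y0 ≤ Y := by
    by_contra hcon
    push Not at hcon
    have := pow_lt_pow_left₀ hcon hYn (Nat.succ_ne_zero h)
    rw [Nat.succ_eq_add_one, hYX] at this
    linarith
  have hY := hY0 Y hYY
  by_contra hcon
  push Not at hcon
  -- the depth of the decision trees
  obtain ⟨s, hs⟩ : ∃ s : ℕ, s = ⌈Y / 24⌉₊ - 1 := ⟨_, rfl⟩
  have hc1 : Y / 24 ≤ ⌈Y / 24⌉₊ := Nat.le_ceil _
  have hc2 : (⌈Y / 24⌉₊ : ℝ) < Y / 24 + 1 := Nat.ceil_lt_add_one (by positivity)
  have hc3 : 2 ≤ ⌈Y / 24⌉₊ := by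
    have : (2 : ℝ) ≤ ⌈Y / 24⌉₊ := le_trans (by linarith) hc1
    exact_mod_cast this
  have hs1 : 1 ≤ s := by omega
  have hsr : (s : ℝ) = ⌈Y / 24⌉₊ - 1 := by
    rw [hs, Nat.cast_sub (by omega), Nat.cast_one]
  have hs2 : 24 * (s : ℝ) < Y := by rw [hsr]; linarith
  have hs3 : Y / 24 - 1 ≤ s := by rw [hsr]; linarith
  have hs0 : (1 : ℝ) ≤ s := by exact_mod_cast hs1
  have hlt : (24 * (s : ℝ)) ^ (h + 1) < X := by
    rw [← hYX]
    exact pow_lt_pow_left₀ hs2 (by positivity) (Nat.succ_ne_zero h)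
  have hcond : (k : ℝ) * (h * M) * (24 * s) ^ h ≤ γ * 2 ^ (s + 1) := by
    calc (k : ℝ) * (h * M) * (24 * s) ^ h = k * M * (h * (24 * s) ^ h) := by ring
      _ ≤ γ * 2 ^ (Y / 100) * (h * Y ^ h) := by
          apply mul_le_mul hcon.le _ (by positivity) (by positivity)
          exact mul_le_mul_of_nonneg_left (pow_le_pow_left₀ (by positivity) hs2.le h)
            (Nat.cast_nonneg _)
      _ = γ * (h * Y ^ h * 2 ^ (Y / 100)) := by ring
      _ ≤ γ * 2 ^ (Y / 24 - 1) := mul_le_mul_of_nonneg_left hY hγ.le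
      _ ≤ γ * (2 : ℝ) ^ (s : ℝ) :=
          mul_le_mul_of_nonneg_left (Real.rpow_le_rpow_of_exponent_le (by norm_num) hs3) hγ.le
      _ = γ * 2 ^ s := by rw [Real.rpow_natCast]
      _ ≤ γ * 2 ^ (s + 1) := by
          apply mul_le_mul_of_nonneg_left _ hγ.le
          exact pow_le_pow_right₀ (by norm_num) (Nat.le_succ s)
  have hcore := coreN S hb hab C out h M hM hh hne eval hred hs1 hcond
  have h1 : X ≤ 2 * s * (24 * s) ^ h := by
    rw [hXd, div_le_iff₀ hkR]
    linarith
  have h2 : 2 * (s : ℝ) * (24 * s) ^ h ≤ (24 * s) ^ (h + 1) := by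
    rw [pow_succ]
    have : (0 : ℝ) ≤ (24 * s) ^ h := by positivity
    nlinarith
  linarith

end Pool.Agent.Q226.ADA
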