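import Pool.Agent.Q226.ADA.TV
import Pool.Agent.Q226.SEN.Law

set_option autoImplicit false
set_option linter.unusedSectionVars false

/-! The random oracle for a gap problem. -/

namespace Pool.Agent.Q226.ADA

open Finset Pool.Agent.Q226.SEN
open scoped Classical

section value

variable {T : Type} [Fintype T] {Λ : Type}

/-- the value of an instance -/
noncomputable def val (S : Λ → T → Prop) (g : T → Bool) : ℝ := best S g / size g

lemma best_le_size (S : Λ → T → Prop) (g : T → Bool) : best S g ≤ size g :=
  best_le S g fun ℓ => sat_le_size S g ℓ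

lemma val_lip (S : Λ → T → Prop) {g g' : T → Bool} (hg : 1 ≤ size g) (hg' : 1 ≤ size g') :
    val S g ≤ val S g' + (gone g g' / size g + gone g' g / size g') := by
  obtain ⟨m, hm⟩ : ∃ m : ℝ, m = size g := ⟨_, rfl⟩
  obtain ⟨m', hm'⟩ : ∃ m' : ℝ, m' = size g' := ⟨_, rfl⟩
  obtain ⟨b, hb⟩ : ∃ b : ℝ, b = best S g := ⟨_, rfl⟩
  obtain ⟨b', hb'⟩ : ∃ b' : ℝ, b' = best S g' := ⟨_, rfl⟩
  obtain ⟨D, hD⟩ : ∃ D : ℝ, D = gone g g' := ⟨_, rfl⟩
  obtain ⟨D', hD'⟩ : ∃ D' : ℝ, D' = gone g' g := ⟨_, rfl⟩
  have h1 : (1 : ℝ) ≤ m := by rw [hm]; exact_mod_cast hg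
  have h1' : (1 : ℝ) ≤ m' := by rw [hm']; exact_mod_cast hg'
  have h2 : b ≤ b' + D := by rw [hb, hb', hD]; exact_mod_cast best_gone S g g'
  have h3 : m + D' = m' + D := by rw [hm, hm', hD, hD']; exact_mod_cast size_gone g g'
  have h4 : b ≤ m := by rw [hb, hm]; exact_mod_cast best_le_size S g
  have h5 : b' ≤ m' := by rw [hb', hm']; exact_mod_cast best_le_size S g'
  have h6 : 0 ≤ b := by rw [hb]; exact Nat.cast_nonneg _
  have h6' : 0 ≤ b' := by rw [hb']; exact Nat.cast_nonneg _
  have h7 : 0 ≤ D := by rw [hD]; exact Nat.cast_nonneg _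
  have h7' : 0 ≤ D' := by rw [hD']; exact Nat.cast_nonneg _
  unfold val
  rw [← hm, ← hm', ← hb, ← hb', ← hD, ← hD']
  have hm0 : 0 < m := by linarith
  have hm0' : 0 < m' := by linarith
  rcases le_total m' m with h | h
  · have e1 : b / m ≤ b' / m' + D / m := by
      rw [div_add_div _ _ hm0'.ne' hm0.ne', div_le_div_iff₀ hm0 (by positivity)]
      have e2 : b' * m' ≤ b' * m := mul_le_mul_of_nonneg_left h h6'
      have e3 : b * m' ≤ (b' + D) * m' := mul_le_mul_of_nonneg_right h2 hm0'.le
      nlinarith
    have e4 : 0 ≤ D' / m' := by positivity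
    linarith
  · have e1 : b / m ≤ b' / m' + D' / m' := by
      rw [← add_div, div_le_div_iff₀ hm0 hm0']
      have e2 : b * m' = b * m + b * (m' - m) := by ring
      have e3 : b * (m' - m) ≤ m * (m' - m) := mul_le_mul_of_nonneg_right h4 (by linarith)
      nlinarith
    have e4 : 0 ≤ D / m := by positivity
    linarith

/-- the probability of the answer `1` -/
noncomputable def pr (S : Λ → T → Prop) (a b : ℝ) (g : T → Bool) : ℝ :=
  max 0 (min 1 ((val S g - b) / (a - b)))

lemma pr_nonneg (S : Λ → T → Prop) (a b : ℝ) (g : T → Bool) : 0 ≤ pr S a b g := le_max_left _ _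

lemma pr_le_one (S : Λ → T → Prop) (a b : ℝ) (g : T → Bool) : pr S a b g ≤ 1 :=
  max_le zero_le_one (min_le_left _ _)

lemma clamp_lip (u v : ℝ) : |max 0 (min 1 u) - max 0 (min 1 v)| ≤ |u - v| := by
  refine (abs_max_sub_max_le_max (0 : ℝ) (min 1 u) 0 (min 1 v)).trans ?_
  refine max_le (by simp) ?_
  exact (abs_min_sub_min_le_max (1 : ℝ) u 1 v).trans (by simp)

/-- the part of `g` which is not in `g'` -/
noncomputable def frac (g g' : T → Bool) : ℝ := gone g g' / size g

lemma frac_nonneg (g g' : T → Bool) : 0 ≤ frac g g' := by unfold frac; positivity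

lemma pr_lip (S : Λ → T → Prop) {a b : ℝ} (hab : b < a) {g g' : T → Bool} (hg : 1 ≤ size g)
    (hg' : 1 ≤ size g') :
    |pr S a b g - pr S a b g'| ≤ 1 / (a - b) * (frac g g' + frac g' g) := by
  have hc : 0 < a - b := by linarith
  refine (clamp_lip _ _).trans ?_
  have h1 : (val S g - b) / (a - b) - (val S g' - b) / (a - b) =
      1 / (a - b) * (val S g - val S g') := by ring
  rw [h1, abs_mul, abs_of_pos (by positivity : 0 < 1 / (a - b))]
  refine mul_le_mul_of_nonneg_left ?_ (by positivity)
  have e1 := val_lip S hg hg'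
  have e2 := val_lip S hg' hg
  unfold frac
  rw [abs_le]
  constructor <;> linarith

lemma pr_yes (S : Λ → T → Prop) {a b : ℝ} (hab : b < a) {g : T → Bool} (hg : 1 ≤ size g)
    (h : ∃ ℓ, a * size g ≤ sat S g ℓ) : pr S a b g = 1 := by
  obtain ⟨ℓ, hℓ⟩ := h
  have hm : (0 : ℝ) < size g := by exact_mod_cast hg
  have h1 : a ≤ val S g := by
    unfold val
    rw [le_div_iff₀ hm]
    refine hℓ.trans ?_
    exact_mod_cast sat_le_best S g ℓ
  have h2 : 1 ≤ (val S g - b) / (a - b) := by
    rw [le_div_iff₀ (by linarith)]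
    linarith
  unfold pr
  rw [min_eq_left h2]
  simp

lemma pr_no (S : Λ → T → Prop) {a b : ℝ} (hb : 0 ≤ b) (hab : b < a) {g : T → Bool}
    (hg : 1 ≤ size g) (h : ∀ ℓ, (sat S g ℓ : ℝ) ≤ b * size g) : pr S a b g = 0 := by
  have hm : (0 : ℝ) < size g := by exact_mod_cast hg
  have h3 : best S g ≤ ⌊b * size g⌋₊ := by
    apply best_le
    intro ℓ
    exact Nat.le_floor (h ℓ)
  have h4 : ((⌊b * size g⌋₊ : ℕ) : ℝ) ≤ b * size g := Nat.floor_le (by positivity)
  have h1 : val S g ≤ b := by
    unfold val
    rw [div_le_iff₀ hm]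
    exact le_trans (by exact_mod_cast h3) h4
  have h2 : (val S g - b) / (a - b) ≤ 0 := div_nonpos_of_nonpos_of_nonneg (by linarith) (by linarith)
  unfold pr
  exact max_eq_left ((min_le_right _ _).trans h2)

/-- the oracles with positive probability are right -/
lemma right_of_pos (S : Λ → T → Prop) {a b : ℝ} (hb : 0 ≤ b) (hab : b < a)
    {O : (T → Bool) → Bool} (hO : wt (pr S a b) O ≠ 0) : Right S a b O := by
  have h1 : ∀ g, (if O g = true then pr S a b g else 1 - pr S a b g) ≠ 0 := by
    intro g
    unfold wt at hO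
    rw [prod_ne_zero_iff] at hO
    exact hO g (mem_univ g)
  intro g hg
  constructor
  · intro hy
    by_contra hc
    have h2 := h1 g
    rw [if_neg hc, pr_yes S hab hg hy] at h2
    simp at h2
  · intro hn
    by_contra hc
    have h2 := h1 g
    have h3 : O g = true := by simpa using hc
    rw [if_pos h3, pr_no S hb hab hg hn] at h2
    exact h2 rfl

end value

section average

variable {N k : ℕ} {T : Type} [Fintype T] {Λ : Type} {R : Type} [Fintype R]

/-- the probability of the output `1` for the coins `ρ` and the input `x` -/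
noncomputable def pout (f : (T → Bool) → ℝ) (k : ℕ)
    (query : R → List Bool → (Fin N → Bool) → T → Bool)
    (output : R → List Bool → (Fin N → Bool) → Bool) (ρ : R) (x : Fin N → Bool) : ℝ :=
  prob f (fun l => query ρ l x) k (fun l => output ρ l x)

lemma pout_eq (f : (T → Bool) → ℝ)
    (query : R → List Bool → (Fin N → Bool) → T → Bool)
    (output : R → List Bool → (Fin N → Bool) → Bool) (ρ : R) (x : Fin N → Bool) :
    pout f k query output ρ x = ∑ O, wt f O *
      if output ρ (run O (fun l => query ρ l x) k) x = true then 1 else 0 := by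
  unfold pout prob
  exact (run_law f (fun l => query ρ l x) k (fun l => if output ρ l x = true then (1 : ℝ) else 0)
    (wt_sum f)).symm

/-- the mean over the oracles -/
lemma mean (S : Λ → T → Prop) {a b γ : ℝ} (hb : 0 ≤ b) (hab : b < a)
    (query : R → List Bool → (Fin N → Bool) → T → Bool)
    (output : R → List Bool → (Fin N → Bool) → Bool)
    (hred : AdaptivelyReduces S a b k query output γ) (x : Fin N → Bool) :
    (1 / 2 + γ) * Fintype.card R ≤
      ∑ ρ, if par x = true then pout (pr S a b) k query output ρ x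
        else 1 - pout (pr S a b) k query output ρ x := by
  obtain ⟨f, hf⟩ : ∃ f, f = pr S a b := ⟨_, rfl⟩
  have hf0 : ∀ g, 0 ≤ f g := fun g => by rw [hf]; exact pr_nonneg S a b g
  have hf1 : ∀ g, f g ≤ 1 := fun g => by rw [hf]; exact pr_le_one S a b g
  rw [← hf]
  have h1 : ∀ O : (T → Bool) → Bool, wt f O * ((1 / 2 + γ) * Fintype.card R) ≤
      wt f O * ∑ ρ, if output ρ (run O (fun l => query ρ l x) k) x = par x then (1 : ℝ) else 0 := by
    intro O
    rcases eq_or_ne (wt f O) 0 with h | h
    · rw [h, zero_mul, zero_mul]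
    · refine mul_le_mul_of_nonneg_left ?_ (wt_nonneg hf0 hf1 O)
      have h2 := hred O (right_of_pos S hb hab (by rw [← hf]; exact h)) x
      rw [card_filter] at h2
      push_cast at h2
      exact h2
  have h2 := sum_le_sum fun O (_ : O ∈ univ) => h1 O
  rw [← sum_mul, wt_sum, one_mul] at h2
  refine h2.trans (le_of_eq ?_)
  simp_rw [mul_sum]
  rw [sum_comm]
  refine sum_congr rfl fun ρ _ => ?_
  cases hp : par x
  · simp only [Bool.false_eq_true, if_false]
    rw [pout_eq]
    have e1 : ∀ O : (T → Bool) → Bool, wt f O *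
        (if output ρ (run O (fun l => query ρ l x) k) x = false then (1 : ℝ) else 0) = wt f O -
        wt f O * (if output ρ (run O (fun l => query ρ l x) k) x = true then 1 else 0) := by
      intro O
      cases output ρ (run O (fun l => query ρ l x) k) x <;> simp
    rw [sum_congr rfl fun O _ => e1 O, sum_sub_distrib, wt_sum]
  · simp only [if_true]
    rw [pout_eq]

/-- neighbouring inputs -/
theorem pair (S : Λ → T → Prop) {a b γ : ℝ} (hb : 0 ≤ b) (hab : b < a)
    (query : R → List Bool → (Fin N → Bool) → T → Bool)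
    (output : R → List Bool → (Fin N → Bool) → Bool)
    (hred : AdaptivelyReduces S a b k query output γ) (x : Fin N → Bool) (i : Fin N) :
    2 * γ * Fintype.card R ≤ ∑ ρ, |pout (pr S a b) k query output ρ x -
      pout (pr S a b) k query output ρ (toggle i x)| := by
  have h1 := mean S hb hab query output hred x
  have h2 := mean S hb hab query output hred (toggle i x)
  rw [par_toggle] at h2
  have h3 : ∀ ρ : R, (if par x = true then pout (pr S a b) k query output ρ x
        else 1 - pout (pr S a b) k query output ρ x) +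
      (if (!par x) = true then pout (pr S a b) k query output ρ (toggle i x)
        else 1 - pout (pr S a b) k query output ρ (toggle i x)) ≤
      1 + |pout (pr S a b) k query output ρ x - pout (pr S a b) k query output ρ (toggle i x)| := by
    intro ρ
    have e1 := le_abs_self (pout (pr S a b) k query output ρ x -
      pout (pr S a b) k query output ρ (toggle i x))
    have e2 := neg_abs_le (pout (pr S a b) k query output ρ x -
      pout (pr S a b) k query output ρ (toggle i x))
    cases par x
    · simp only [Bool.false_eq_true, if_false, Bool.not_false, if_true]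
      linarith
    · simp only [if_true, Bool.not_true, Bool.false_eq_true, if_false]
      linarith
  have h4 := sum_le_sum fun ρ (_ : ρ ∈ univ) => h3 ρ
  rw [sum_add_distrib, sum_add_distrib, sum_const, card_univ, nsmul_eq_mul, mul_one] at h4
  linarith

end average

end Pool.Agent.Q226.ADA
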