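import Pool.Agent.Q226.ADA.Final
import Pool.Agent.Q226.ADA.NonAd
import Pool.Agent.Q226.SEN.SSE

/-! # Small-set expansion: adaptive reductions -/

set_option autoImplicit false

namespace Pool.Agent.Q226.ADA

open Finset DomAC0 Pool.Agent.Q226.SEN
open scoped Classical

variable {N k : ℕ} {V : Type} [Fintype V]

/-- The oracle `O` is right on the regular graphs with the vertex set `V` and positive degree: it
answers `1` if some set of `s` vertices has expansion at most `ε`, and `0` if all sets of `s` vertices
have expansion at least `1 - η`; its other answers are arbitrary. -/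
def RightSSE (s : ℕ) (ε η : ℝ) (O : SimpleGraph V → Bool) : Prop :=
  ∀ G d, 1 ≤ d → Regular G d →
    ((∃ S : Finset V, S.card = s ∧ (cut G S : ℝ) ≤ ε * (d * s)) → O G = true) ∧
    ((∀ S : Finset V, S.card = s → (1 - η) * (d * s) ≤ cut G S) → O G = false)

/-- A randomised adaptive reduction with `k` queries and advantage `γ` from parity to small-set
expansion: for the random choice `ρ`, the input `x` and the list `l` of the answers given so far, the
next query is the graph `query ρ l x`, and after `k` answers the output is `output ρ l x`. For every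
right oracle and every input the output is the parity of `x` with probability at least `1 / 2 + γ`
over `ρ`. -/
def AdaptivelyReducesSSE (s : ℕ) (ε η : ℝ) (k : ℕ) {R : Type} [Fintype R]
    (query : R → List Bool → (Fin N → Bool) → SimpleGraph V)
    (output : R → List Bool → (Fin N → Bool) → Bool) (γ : ℝ) : Prop :=
  ∀ O, RightSSE s ε η O → ∀ x, (1 / 2 + γ) * Fintype.card R ≤
    ((univ.filter fun ρ => output ρ (run O (fun l => query ρ l x) k) x = par x).card : ℝ)

omit [Fintype V] in
lemma adj_inj {G G' : SimpleGraph V} : adj G = adj G' ↔ G = G' := by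
  refine ⟨fun h => ?_, fun h => by rw [h]⟩
  ext v w
  have h1 := congrFun h (v, w)
  unfold adj at h1
  simpa using h1

omit [Fintype V] in
lemma run_adj (O : (V × V → Bool) → Bool) (q : List Bool → SimpleGraph V)
    (g : List Bool → V × V → Bool) : ∀ k : ℕ, (∀ l, l.length < k → g l = adj (q l)) →
    run O g k = run (fun G => O (adj G)) q k
  | 0, _ => rfl
  | k + 1, h => by
    have h1 := run_adj O q g k fun l hl => h l (by omega)
    show O (g (run O g k)) :: run O g k = _ :: _
    rw [h1, h _ (by rw [run_length]; omega)]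

theorem to_adaptive {s k : ℕ} {ε η γ : ℝ} (hV : 0 < Fintype.card V) {R : Type} [Fintype R]
    (query : R → List Bool → (Fin N → Bool) → SimpleGraph V)
    (output : R → List Bool → (Fin N → Bool) → Bool)
    (h : AdaptivelyReducesSSE s ε η k query output γ)
    (g : R → List Bool → (Fin N → Bool) → V × V → Bool)
    (hg : ∀ ρ l x, l.length < k → g ρ l x = adj (query ρ l x)) :
    AdaptivelyReduces (Inside s) ((1 - ε) * s / Fintype.card V) (η * s / Fintype.card V) k g
      output γ := by
  intro O hO x
  have hVR : (0 : ℝ) < Fintype.card V := by exact_mod_cast hV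
  have hc : RightSSE s ε η (fun G : SimpleGraph V => O (adj G)) := by
    intro G d hd hG
    have hs : size (adj G) = d * Fintype.card V := size_adj hG
    have h1 := hO (adj G) (by rw [hs]; exact Nat.mul_pos hd hV)
    rw [hs] at h1
    constructor
    · rintro ⟨S, hS, hcut⟩
      apply h1.1
      refine ⟨⟨S, hS⟩, ?_⟩
      have h2 := sat_cut (s := s) hG ⟨S, hS⟩
      have h3 : (sat (Inside s) (adj G) ⟨S, hS⟩ : ℝ) + cut G S = d * s := by exact_mod_cast h2
      push_cast
      have h4 : (1 - ε) * s / Fintype.card V * (d * Fintype.card V) = (1 - ε) * (d * s) := by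
        field_simp
      rw [h4]
      linarith
    · intro hno
      apply h1.2
      intro S
      have h2 := sat_cut (s := s) hG S
      have h3 : (sat (Inside s) (adj G) S : ℝ) + cut G S.1 = d * s := by exact_mod_cast h2
      have h5 := hno S.1 S.2
      push_cast
      have h4 : η * s / Fintype.card V * (d * Fintype.card V) = η * (d * s) := by
        field_simp
      rw [h4]
      linarith
  have h2 := h _ hc x
  have h3 : ∀ ρ, run O (fun l => g ρ l x) k =
      run (fun G => O (adj G)) (fun l => query ρ l x) k :=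
    fun ρ => run_adj O _ _ k fun l hl => hg ρ l x hl
  simp only [h3]
  exact h2

/-- few sensitive bits -/
theorem sse_few {s t : ℕ} {ε η γ : ℝ} (hV : 0 < Fintype.card V) (hs : 1 ≤ s) (hη : 0 ≤ η)
    (hεη : ε + η < 1) {R : Type} [Fintype R] [Nonempty R]
    (query : R → List Bool → (Fin N → Bool) → SimpleGraph V)
    (output : R → List Bool → (Fin N → Bool) → Bool)
    (hreg : ∀ ρ l x, l.length < k → ∃ d, 1 ≤ d ∧ Regular (query ρ l x) d)
    (h : AdaptivelyReducesSSE s ε η k query output γ)
    (hs1 : ∀ ρ l x (v w : V), l.length < k → (query ρ l x).Adj v w →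
      (univ.filter fun i => ¬ (query ρ l (toggle i x)).Adj v w).card ≤ t)
    (hs2 : ∀ ρ l l' x, l.length < k → l' <:+ l → l' ≠ l →
      (univ.filter fun i => ¬ (query ρ l' x = query ρ l x ↔
        query ρ l' (toggle i x) = query ρ l (toggle i x))).card ≤ t)
    (hs3 : ∀ ρ l x, l.length = k →
      (univ.filter fun i => output ρ l x ≠ output ρ l (toggle i x)).card ≤ t) :
    2 * γ * N ≤ t * (2 * (Fintype.card V / ((1 - ε - η) * s)) * k + k * (k - 1) / 2 + 1) := by
  have hVR : (0 : ℝ) < Fintype.card V := by exact_mod_cast hV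
  have hsR : (0 : ℝ) < s := by exact_mod_cast hs
  have hred := to_adaptive hV query output h (fun ρ l x => adj (query ρ l x)) fun ρ l x _ => rfl
  have hb : 0 ≤ η * s / Fintype.card V := by positivity
  have hab : η * s / Fintype.card V < (1 - ε) * s / Fintype.card V := by
    apply div_lt_div_of_pos_right _ hVR
    apply mul_lt_mul_of_pos_right _ hsR
    linarith
  have hne : ∀ ρ l x, l.length < k → 1 ≤ size (adj (query ρ l x)) := by
    intro ρ l x hl
    obtain ⟨d, hd, hG⟩ := hreg ρ l x hl
    rw [size_adj hG]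
    exact Nat.mul_pos hd hV
  have h1 := few (Inside s) hb hab _ output hne hred t ?_ ?_ hs3
  · have h2 : (1 : ℝ) / ((1 - ε) * s / Fintype.card V - η * s / Fintype.card V) =
        Fintype.card V / ((1 - ε - η) * s) := by
      rw [← sub_div, one_div_div]
      ring_nf
    rw [h2] at h1
    exact h1
  · intro ρ l x p hl hp
    unfold adj at hp ⊢
    rw [decide_eq_true_eq] at hp
    simp only [decide_eq_false_iff_not]
    exact hs1 ρ l x p.1 p.2 hl hp
  · intro ρ l l' x hl h2 h3
    simp only [adj_inj]
    exact hs2 ρ l l' x hl h2 h3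

/-- circuits of constant depth -/
theorem sse_final (h : ℕ) : ∃ X0 : ℝ, ∀ (N k s M : ℕ) (V R : Type) [Fintype V] [Fintype R]
    [Nonempty R] (ε η γ : ℝ) (C : R → List Bool → Circuit (Fin N))
    (out : ∀ ρ l, V × V → Fin N ⊕ Fin (C ρ l).size) (fin : ∀ ρ l, Fin N ⊕ Fin (C ρ l).size)
    (query : R → List Bool → (Fin N → Bool) → SimpleGraph V),
    0 ≤ ε → 0 ≤ η → ε + η < 1 → 0 < γ → 1 ≤ k → 1 ≤ s → s ≤ Fintype.card V →
    (∀ ρ l, l.length ≤ k → (C ρ l).size ≤ M) →
    (∀ ρ l p, l.length < k → (C ρ l).nodeDepth (out ρ l p) ≤ h) →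
    (∀ ρ l, l.length = k → (C ρ l).nodeDepth (fin ρ l) ≤ h) →
    (∀ ρ l x (p : V × V), l.length < k →
      ((C ρ l).nodeVal x (out ρ l p) = true ↔ (query ρ l x).Adj p.1 p.2)) →
    (∀ ρ l x, l.length < k → ∃ d, 1 ≤ d ∧ Regular (query ρ l x) d) →
    AdaptivelyReducesSSE s ε η k query (fun ρ l x => (C ρ l).nodeVal x (fin ρ l)) γ →
    X0 * (k : ℝ) ^ (h + 4) ≤ γ * ((1 - ε - η) * s / Fintype.card V) * N →
    γ * (2 : ℝ) ^ ((γ * ((1 - ε - η) * s / Fintype.card V) * N / (k : ℝ) ^ 2) ^
      (1 / (h + 2 : ℝ)) / 100) ≤ M + k := by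
  obtain ⟨X0, hX⟩ := final h
  refine ⟨X0, ?_⟩
  intro N k s M V R _ _ _ ε η γ C out fin query hε hη hεη hγ hk hs hsV hM hd1 hd2 hval hreg hred hN
  have hV : 0 < Fintype.card V := by omega
  have hVR : (0 : ℝ) < Fintype.card V := by exact_mod_cast hV
  have hsR : (0 : ℝ) < s := by exact_mod_cast hs
  have hsVR : (s : ℝ) ≤ Fintype.card V := by exact_mod_cast hsV
  have hb : 0 ≤ η * s / Fintype.card V := by positivity
  have hab : η * s / Fintype.card V < (1 - ε) * s / Fintype.card V := by
    apply div_lt_div_of_pos_right _ hVR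
    apply mul_lt_mul_of_pos_right _ hsR
    linarith
  have ha : (1 - ε) * s / Fintype.card V ≤ 1 := by
    rw [div_le_one hVR]
    nlinarith
  have hgv : ∀ ρ l x, l.length < k →
      (fun p => (C ρ l).nodeVal x (out ρ l p)) = adj (query ρ l x) := by
    intro ρ l x hl
    funext p
    unfold adj
    have h1 := hval ρ l x p hl
    rcases hc : (C ρ l).nodeVal x (out ρ l p) with _ | _
    · rw [hc] at h1
      symm
      rw [decide_eq_false_iff_not]
      intro h2
      have := h1.2 h2
      simp at this
    · rw [hc] at h1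
      symm
      rw [decide_eq_true_eq]
      exact h1.1 rfl
  have hred' := to_adaptive hV query _ hred
    (fun ρ l x p => (C ρ l).nodeVal x (out ρ l p)) hgv
  have hne : ∀ ρ l x, l.length < k → 1 ≤ size (fun p => (C ρ l).nodeVal x (out ρ l p)) := by
    intro ρ l x hl
    obtain ⟨d, hd, hG⟩ := hreg ρ l x hl
    rw [hgv ρ l x hl, size_adj hG]
    exact Nat.mul_pos hd hV
  have hdiff : (1 - ε) * s / Fintype.card V - η * s / Fintype.card V =
      (1 - ε - η) * s / Fintype.card V := by ring
  have h1 := hX (Inside s) ((1 - ε) * s / Fintype.card V) (η * s / Fintype.card V) γ C out fin hb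
    hab ha hγ hk hM hd1 hd2 hne hred' (by rw [hdiff]; exact hN)
  rw [hdiff] at h1
  exact h1

end Pool.Agent.Q226.ADA
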