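import Pool.Agent.Q226.ADA.Law

set_option autoImplicit false
set_option linter.unusedSectionVars false

/-! The histories for neighbouring inputs. -/

namespace Pool.Agent.Q226.ADA

open Finset
open scoped Classical

section

variable {G : Type} {f : G → ℝ}

/-- the number of the earlier queries whose equality with the present query changes -/
noncomputable def pat (q q' : List Bool → G) (g g' : G) : List Bool → ℕ
  | [] => 0
  | _ :: l => (if (q l = g ↔ q' l = g') then 0 else 1) + pat q q' g g' l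

lemma look_eq (q q' : List Bool → G) (g g' : G) : ∀ l, pat q q' g g' l = 0 →
    look q g l = look q' g' l
  | [], _ => rfl
  | b :: l, h => by
      unfold pat at h
      have h1 : q l = g ↔ q' l = g' := by
        by_contra hc
        rw [if_neg hc] at h
        omega
      rw [if_pos h1, zero_add] at h
      have h2 := look_eq q q' g g' l h
      unfold look
      by_cases h3 : q l = g
      · rw [if_pos h3, if_pos (h1.1 h3)]
      · rw [if_neg h3, if_neg fun h4 => h3 (h1.2 h4), h2]

lemma kap_diff (h0 : ∀ g, 0 ≤ f g) (h1 : ∀ g, f g ≤ 1) (q q' : List Bool → G) (l : List Bool) :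
    |kap f q l true - kap f q' l true| ≤ |f (q l) - f (q' l)| + pat q q' (q l) (q' l) l := by
  rcases Nat.eq_zero_or_pos (pat q q' (q l) (q' l) l) with h | h
  · rw [h, Nat.cast_zero, add_zero]
    have h2 := look_eq q q' (q l) (q' l) l h
    unfold kap
    rw [h2]
    cases look q' (q' l) l with
    | none => simp
    | some c => simp
  · have h2 : (1 : ℝ) ≤ pat q q' (q l) (q' l) l := by exact_mod_cast h
    have h3 := kap_nonneg (q := q) h0 h1 l true
    have h4 := kap_nonneg (q := q') h0 h1 l true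
    have h5 := kap_le_one (q := q) h0 h1 l true
    have h6 := kap_le_one (q := q') h0 h1 l true
    have h7 : |kap f q l true - kap f q' l true| ≤ 1 := by
      rw [abs_le]
      constructor <;> linarith
    have h8 := abs_nonneg (f (q l) - f (q' l))
    linarith

/-- the common part of the two laws -/
noncomputable def mm (f : G → ℝ) (q q' : List Bool → G) (l : List Bool) : ℝ :=
  min (mu f q l) (mu f q' l)

lemma mm_comm (q q' : List Bool → G) (l : List Bool) : mm f q q' l = mm f q' q l := min_comm _ _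

lemma mm_nonneg (h0 : ∀ g, 0 ≤ f g) (h1 : ∀ g, f g ≤ 1) (q q' : List Bool → G) (l : List Bool) :
    0 ≤ mm f q q' l := le_min (mu_nonneg h0 h1 l) (mu_nonneg h0 h1 l)

lemma mm_step (h0 : ∀ g, 0 ≤ f g) (h1 : ∀ g, f g ≤ 1) (q q' : List Bool → G) (l : List Bool) :
    mm f q q' l * (1 - |kap f q l true - kap f q' l true|) ≤
      mm f q q' (true :: l) + mm f q q' (false :: l) := by
  have hm := mm_nonneg h0 h1 q q' l
  have h2 : ∀ b, mm f q q' l * min (kap f q l b) (kap f q' l b) ≤ mm f q q' (b :: l) := by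
    intro b
    refine le_min ?_ ?_
    · exact mul_le_mul (min_le_left _ _) (min_le_left _ _)
        (le_min (kap_nonneg h0 h1 l b) (kap_nonneg h0 h1 l b)) (mu_nonneg h0 h1 l)
    · exact mul_le_mul (min_le_right _ _) (min_le_right _ _)
        (le_min (kap_nonneg h0 h1 l b) (kap_nonneg h0 h1 l b)) (mu_nonneg h0 h1 l)
  have h3 : 1 - |kap f q l true - kap f q' l true| =
      min (kap f q l true) (kap f q' l true) + min (kap f q l false) (kap f q' l false) := by
    rw [kap_false, kap_false]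
    rcases le_total (kap f q l true) (kap f q' l true) with h | h
    · rw [min_eq_left h, min_eq_right (by linarith), abs_of_nonpos (by linarith)]
      ring
    · rw [min_eq_right h, min_eq_left (by linarith), abs_of_nonneg (by linarith)]
      ring
  rw [h3, mul_add]
  exact add_le_add (h2 true) (h2 false)

theorem tv (h0 : ∀ g, 0 ≤ f g) (h1 : ∀ g, f g ≤ 1) (q q' : List Bool → G) (k : ℕ) :
    1 - tot k (mm f q q') ≤
      ∑ j ∈ range k, tot j fun l => mm f q q' l * |kap f q l true - kap f q' l true| := by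
  induction k with
  | zero =>
    show 1 - min (1 : ℝ) 1 ≤ _
    simp
  | succ k ih =>
    rw [sum_range_succ]
    have h2 : tot k (fun l => mm f q q' l * (1 - |kap f q l true - kap f q' l true|)) ≤
        tot (k + 1) (mm f q q') := by
      show _ ≤ tot k _
      exact tot_mono fun l _ => mm_step h0 h1 q q' l
    have h3 : tot k (fun l => mm f q q' l * (1 - |kap f q l true - kap f q' l true|)) =
        tot k (mm f q q') - tot k fun l => mm f q q' l * |kap f q l true - kap f q' l true| := by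
      rw [← tot_sub]
      exact tot_congr fun l _ => by ring
    linarith

/-- the difference of the probabilities of the output `1` -/
theorem diff (h0 : ∀ g, 0 ≤ f g) (h1 : ∀ g, f g ≤ 1) (q q' : List Bool → G) (k : ℕ)
    (h h' : List Bool → ℝ) (hh0 : ∀ l, 0 ≤ h l) (hh1 : ∀ l, h l ≤ 1) (hh0' : ∀ l, 0 ≤ h' l)
    (hh1' : ∀ l, h' l ≤ 1) :
    |tot k (fun l => mu f q l * h l) - tot k (fun l => mu f q' l * h' l)| ≤
      ∑ j ∈ range k, tot j (fun l => mm f q q' l * |kap f q l true - kap f q' l true|) +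
        tot k (fun l => mm f q q' l * |h l - h' l|) := by
  have key : ∀ (q q' : List Bool → G) (h h' : List Bool → ℝ), (∀ l, 0 ≤ h l) → (∀ l, h l ≤ 1) →
      (∀ l, 0 ≤ h' l) → (∀ l, h' l ≤ 1) →
      tot k (fun l => mu f q l * h l) - tot k (fun l => mu f q' l * h' l) ≤
        (1 - tot k (mm f q q')) + tot k (fun l => mm f q q' l * |h l - h' l|) := by
    intro q q' h h' hh0 hh1 hh0' hh1'
    rw [← tot_sub, ← tot_mu f q k, ← tot_sub, ← tot_add]
    refine tot_mono fun l _ => ?_
    have e1 : mm f q q' l ≤ mu f q l := min_le_left _ _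
    have e2 : mm f q q' l ≤ mu f q' l := min_le_right _ _
    have e3 := mm_nonneg h0 h1 q q' l
    have e4 : mm f q q' l * (h l - h' l) ≤ mm f q q' l * |h l - h' l| :=
      mul_le_mul_of_nonneg_left (le_abs_self _) e3
    have e5 : (mu f q l - mm f q q' l) * h l ≤ (mu f q l - mm f q q' l) * 1 :=
      mul_le_mul_of_nonneg_left (hh1 l) (by linarith)
    have e6 : mm f q q' l * h' l ≤ mu f q' l * h' l := mul_le_mul_of_nonneg_right e2 (hh0' l)
    nlinarith
  have ht := tv h0 h1 q q' k
  have k1 := key q q' h h' hh0 hh1 hh0' hh1'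
  have k2 := key q' q h' h hh0' hh1' hh0 hh1
  have e1 : tot k (mm f q' q) = tot k (mm f q q') := tot_congr fun l _ => mm_comm _ _ _
  have e2 : tot k (fun l => mm f q' q l * |h' l - h l|) =
      tot k (fun l => mm f q q' l * |h l - h' l|) :=
    tot_congr fun l _ => by rw [mm_comm, abs_sub_comm]
  rw [e1, e2] at k2
  rw [abs_le]
  constructor <;> linarith

end

section charge

variable {G X ι : Type} [Fintype X] {f : G → ℝ}

/-- the probability of the output `1` -/
noncomputable def prob (f : G → ℝ) (q : List Bool → G) (k : ℕ) (h : List Bool → Bool) : ℝ :=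
  tot k fun l => mu f q l * if h l = true then 1 else 0

lemma prob_nonneg (h0 : ∀ g, 0 ≤ f g) (h1 : ∀ g, f g ≤ 1) (q : List Bool → G) (k : ℕ)
    (h : List Bool → Bool) : 0 ≤ prob f q k h :=
  tot_nonneg fun l _ => mul_nonneg (mu_nonneg h0 h1 l) (by split_ifs <;> norm_num)

lemma prob_le_one (h0 : ∀ g, 0 ≤ f g) (h1 : ∀ g, f g ≤ 1) (q : List Bool → G) (k : ℕ)
    (h : List Bool → Bool) : prob f q k h ≤ 1 := by
  rw [← tot_mu f q k]
  refine tot_mono fun l _ => ?_
  have := mu_nonneg (q := q) h0 h1 l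
  split_ifs <;> linarith

/-- The charging argument. -/
theorem charge (h0 : ∀ g, 0 ≤ f g) (h1 : ∀ g, f g ≤ 1) (J : Finset ι) (t : ι → X → X)
    (ht : ∀ i x, t i (t i x) = x) (q : X → List Bool → G) (k : ℕ) (h : X → List Bool → Bool)
    {L s : ℝ} (hL0 : 0 ≤ L) (δ : G → G → ℝ)
    (hL : ∀ x x' l, l.length < k →
      |f (q x l) - f (q x' l)| ≤ L * (δ (q x l) (q x' l) + δ (q x' l) (q x l)))
    (hδ0 : ∀ g g', 0 ≤ δ g g')
    (H1 : ∀ x l, l.length < k → ∑ i ∈ J, δ (q x l) (q (t i x) l) ≤ s)
    (H2 : ∀ x l, l.length < k →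
      ∑ i ∈ J, (pat (q x) (q (t i x)) (q x l) (q (t i x) l) l : ℝ) ≤ s * l.length)
    (H3 : ∀ x l, l.length = k → ((J.filter fun i => h x l ≠ h (t i x) l).card : ℝ) ≤ s) :
    ∑ x, ∑ i ∈ J, |prob f (q x) k (h x) - prob f (q (t i x)) k (h (t i x))| ≤
      Fintype.card X * (s * (2 * L * k + k * (k - 1) / 2 + 1)) := by
  have hsum : ∀ (i : ι) (F : X → ℝ), ∑ x, F (t i x) = ∑ x, F x := fun i F =>
    Fintype.sum_equiv ⟨t i, t i, ht i, ht i⟩ _ _ fun _ => rfl
  -- the three kinds of terms
  obtain ⟨D1, hD1⟩ : ∃ D : ℕ → X → ι → ℝ, D = fun j x i =>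
    tot j fun l => mm f (q x) (q (t i x)) l * δ (q x l) (q (t i x) l) := ⟨_, rfl⟩
  obtain ⟨D2, hD2⟩ : ∃ D : ℕ → X → ι → ℝ, D = fun j x i =>
    tot j fun l => mm f (q x) (q (t i x)) l *
      (pat (q x) (q (t i x)) (q x l) (q (t i x) l) l : ℝ) := ⟨_, rfl⟩
  obtain ⟨D3, hD3⟩ : ∃ D : X → ι → ℝ, D = fun x i =>
    tot k fun l => mm f (q x) (q (t i x)) l * (if h x l ≠ h (t i x) l then 1 else 0) := ⟨_, rfl⟩
  have hpt : ∀ x, ∀ i ∈ J, |prob f (q x) k (h x) - prob f (q (t i x)) k (h (t i x))| ≤
      ∑ j ∈ range k, (L * (D1 j x i + D1 j (t i x) i) + D2 j x i) + D3 x i := by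
    intro x i _
    refine (diff h0 h1 (q x) (q (t i x)) k (fun l => if h x l = true then 1 else 0)
      (fun l => if h (t i x) l = true then 1 else 0) (fun l => by split_ifs <;> norm_num)
      (fun l => by split_ifs <;> norm_num) (fun l => by split_ifs <;> norm_num)
      (fun l => by split_ifs <;> norm_num)).trans ?_
    refine add_le_add (sum_le_sum fun j hj => ?_) ?_
    · rw [mem_range] at hj
      rw [hD1, hD2]
      simp only
      rw [← tot_add, ← tot_mul, ← tot_add]
      refine tot_mono fun l hl => ?_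
      have e1 := kap_diff h0 h1 (q x) (q (t i x)) l
      have e2 := hL x (t i x) l (by omega)
      have e3 := mm_nonneg h0 h1 (q x) (q (t i x)) l
      have e4 := mul_le_mul_of_nonneg_left (e1.trans (add_le_add e2 le_rfl)) e3
      refine e4.trans (le_of_eq ?_)
      rw [ht, mm_comm (q (t i x)) (q x)]
      ring
    · rw [hD3]
      refine tot_mono fun l _ => ?_
      refine mul_le_mul_of_nonneg_left ?_ (mm_nonneg h0 h1 _ _ _)
      cases h x l <;> cases h (t i x) l <;> simp
  have hle : ∀ x i l, mm f (q x) (q (t i x)) l ≤ mu f (q x) l := fun x i l => min_le_left _ _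
  -- sums over `J`
  have hs1 : ∀ j < k, ∀ x, ∑ i ∈ J, D1 j x i ≤ s := by
    intro j hj x
    rw [hD1]
    simp only
    rw [← tot_sum]
    have e1 : tot j (fun l => ∑ i ∈ J, mm f (q x) (q (t i x)) l * δ (q x l) (q (t i x) l)) ≤
        tot j (fun l => s * mu f (q x) l) := by
      refine tot_mono fun l hl => ?_
      calc ∑ i ∈ J, mm f (q x) (q (t i x)) l * δ (q x l) (q (t i x) l)
          ≤ ∑ i ∈ J, mu f (q x) l * δ (q x l) (q (t i x) l) :=
            sum_le_sum fun i _ => mul_le_mul_of_nonneg_right (hle x i l) (hδ0 _ _)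
        _ = mu f (q x) l * ∑ i ∈ J, δ (q x l) (q (t i x) l) := by rw [mul_sum]
        _ ≤ mu f (q x) l * s :=
            mul_le_mul_of_nonneg_left (H1 x l (by omega)) (mu_nonneg h0 h1 l)
        _ = s * mu f (q x) l := mul_comm _ _
    rw [tot_mul, tot_mu, mul_one] at e1
    exact e1
  have hs2 : ∀ j < k, ∀ x, ∑ i ∈ J, D2 j x i ≤ s * j := by
    intro j hj x
    rw [hD2]
    simp only
    rw [← tot_sum]
    have e1 : tot j (fun l => ∑ i ∈ J, mm f (q x) (q (t i x)) l *
        (pat (q x) (q (t i x)) (q x l) (q (t i x) l) l : ℝ)) ≤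
        tot j (fun l => (s * j) * mu f (q x) l) := by
      refine tot_mono fun l hl => ?_
      calc ∑ i ∈ J, mm f (q x) (q (t i x)) l *
            (pat (q x) (q (t i x)) (q x l) (q (t i x) l) l : ℝ)
          ≤ ∑ i ∈ J, mu f (q x) l * (pat (q x) (q (t i x)) (q x l) (q (t i x) l) l : ℝ) :=
            sum_le_sum fun i _ => mul_le_mul_of_nonneg_right (hle x i l) (Nat.cast_nonneg _)
        _ = mu f (q x) l * ∑ i ∈ J, (pat (q x) (q (t i x)) (q x l) (q (t i x) l) l : ℝ) := by
            rw [mul_sum]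
        _ ≤ mu f (q x) l * (s * j) := by
            refine mul_le_mul_of_nonneg_left ?_ (mu_nonneg h0 h1 l)
            have := H2 x l (by omega)
            rwa [hl] at this
        _ = (s * j) * mu f (q x) l := mul_comm _ _
    rw [tot_mul, tot_mu, mul_one] at e1
    exact e1
  have hs3 : ∀ x, ∑ i ∈ J, D3 x i ≤ s := by
    intro x
    rw [hD3]
    simp only
    rw [← tot_sum]
    have e1 : tot k (fun l => ∑ i ∈ J, mm f (q x) (q (t i x)) l *
        (if h x l ≠ h (t i x) l then 1 else 0)) ≤ tot k (fun l => s * mu f (q x) l) := by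
      refine tot_mono fun l hl => ?_
      calc ∑ i ∈ J, mm f (q x) (q (t i x)) l * (if h x l ≠ h (t i x) l then 1 else 0)
          ≤ ∑ i ∈ J, mu f (q x) l * (if h x l ≠ h (t i x) l then 1 else 0) :=
            sum_le_sum fun i _ => mul_le_mul_of_nonneg_right (hle x i l)
              (by split_ifs <;> norm_num)
        _ = mu f (q x) l * ((J.filter fun i => h x l ≠ h (t i x) l).card : ℝ) := by
            rw [← mul_sum, card_filter]
            push_cast
            rfl
        _ ≤ mu f (q x) l * s :=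
            mul_le_mul_of_nonneg_left (H3 x l hl) (mu_nonneg h0 h1 l)
        _ = s * mu f (q x) l := mul_comm _ _
    rw [tot_mul, tot_mu, mul_one] at e1
    exact e1
  have hX : (0 : ℝ) ≤ Fintype.card X := Nat.cast_nonneg _
  -- the sum over `x`
  have hgauss : ∀ n : ℕ, ∑ j ∈ range n, (j : ℝ) = n * (n - 1) / 2 := by
    intro n
    induction n with
    | zero => simp
    | succ n ih => rw [sum_range_succ, ih]; push_cast; ring
  have hB : ∑ x, ∑ i ∈ J, ∑ j ∈ range k, L * D1 j (t i x) i =
      ∑ x, ∑ i ∈ J, ∑ j ∈ range k, L * D1 j x i := by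
    rw [sum_comm]
    conv_rhs => rw [sum_comm]
    exact sum_congr rfl fun i _ => hsum i fun x => ∑ j ∈ range k, L * D1 j x i
  have hx : ∀ x, ∑ i ∈ J, ∑ j ∈ range k, (2 * (L * D1 j x i) + D2 j x i) + ∑ i ∈ J, D3 x i ≤
      s * (2 * L * k + k * (k - 1) / 2 + 1) := by
    intro x
    rw [sum_comm]
    have e1 : ∑ j ∈ range k, ∑ i ∈ J, (2 * (L * D1 j x i) + D2 j x i) ≤
        ∑ j ∈ range k, (2 * (L * s) + s * j) := by
      refine sum_le_sum fun j hj => ?_
      rw [mem_range] at hj
      rw [sum_add_distrib, ← mul_sum, ← mul_sum]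
      have e2 := mul_le_mul_of_nonneg_left (hs1 j hj x) hL0
      have e3 := hs2 j hj x
      linarith
    rw [sum_add_distrib, sum_const, card_range, nsmul_eq_mul, ← mul_sum, hgauss] at e1
    have e2 := hs3 x
    calc _ ≤ (k * (2 * (L * s)) + s * (k * (k - 1) / 2)) + s := add_le_add e1 e2
      _ = _ := by ring
  calc ∑ x, ∑ i ∈ J, |prob f (q x) k (h x) - prob f (q (t i x)) k (h (t i x))|
      ≤ ∑ x, ∑ i ∈ J, (∑ j ∈ range k, (L * (D1 j x i + D1 j (t i x) i) + D2 j x i) + D3 x i) :=
        sum_le_sum fun x _ => sum_le_sum fun i hi => hpt x i hi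
    _ = ∑ x, ∑ i ∈ J, ∑ j ∈ range k, L * D1 j x i +
          ∑ x, ∑ i ∈ J, ∑ j ∈ range k, L * D1 j (t i x) i +
          ∑ x, ∑ i ∈ J, ∑ j ∈ range k, D2 j x i + ∑ x, ∑ i ∈ J, D3 x i := by
        simp only [sum_add_distrib, mul_add]
    _ = ∑ x, (∑ i ∈ J, ∑ j ∈ range k, (2 * (L * D1 j x i) + D2 j x i) + ∑ i ∈ J, D3 x i) := by
        rw [hB]
        simp only [sum_add_distrib, ← mul_sum]
        ring
    _ ≤ ∑ _x : X, s * (2 * L * k + k * (k - 1) / 2 + 1) := sum_le_sum fun x _ => hx x
    _ = _ := by rw [sum_const, card_univ, nsmul_eq_mul]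

end charge

end Pool.Agent.Q226.ADA
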